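import Pool.Agent.H919R4.ZS.Defs

/-!
# Finitely supported cochains of the covers of a finite aspherical complex

`G` acts on the set `Ω`; the cochains are the finitely supported ones.
-/

set_option autoImplicit false

namespace Pool.Agent.L7h55.SE

open Pool.Agent.H919R4.ZS (FinRes)

noncomputable section

variable {G : Type} [Group G] {Ω : Type} [MulAction G Ω]

/-- The action of the group ring on the finitely supported functions on a `G`-set:
`(a f)(x) = ∑_g a_g f(g⁻¹ x)`. -/
def ring (a : MonoidAlgebra ℤ G) (f : Ω →₀ ℂ) : Ω →₀ ℂ :=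
  a.coeff.sum fun g r => (r : ℂ) • f.mapDomain fun x => g • x

/-- The action of the adjoint of an element of the group ring:
`(a* f)(x) = ∑_g a_g f(g x)`. -/
def ringAdj (a : MonoidAlgebra ℤ G) (f : Ω →₀ ℂ) : Ω →₀ ℂ :=
  a.coeff.sum fun g r => (r : ℂ) • f.mapDomain fun x => g⁻¹ • x

/-- The finitely supported cochains of degree `i` with values in the functions on `Ω`. -/
abbrev Coch (X : FinRes G) (Ω : Type) (i : ℕ) : Type := Fin (X.n i) → Ω →₀ ℂ

/-- The coboundary. -/
def cob (X : FinRes G) (i : ℕ) (c : Coch X Ω i) : Coch X Ω (i + 1) :=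
  fun k => ∑ j, ring (X.d i k j) (c j)

/-- The adjoint of the coboundary. -/
def cobAdj (X : FinRes G) (i : ℕ) (c : Coch X Ω (i + 1)) : Coch X Ω i :=
  fun j => ∑ k, ringAdj (X.d i k j) (c k)

/-- The square of the norm of a cochain. -/
def nsq {n : ℕ} (c : Fin n → Ω →₀ ℂ) : ℝ := ∑ j, (c j).sum fun _ a => ‖a‖ ^ 2

/-! ### linearity -/

theorem ring_add (a : MonoidAlgebra ℤ G) (f f' : Ω →₀ ℂ) :
    ring a (f + f') = ring a f + ring a f' := by
  unfold ring Finsupp.sum
  rw [← Finset.sum_add_distrib]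
  refine Finset.sum_congr rfl fun g _ => ?_
  beta_reduce
  rw [Finsupp.mapDomain_add, smul_add]

theorem ring_smul (a : MonoidAlgebra ℤ G) (z : ℂ) (f : Ω →₀ ℂ) :
    ring a (z • f) = z • ring a f := by
  unfold ring Finsupp.sum
  rw [Finset.smul_sum]
  refine Finset.sum_congr rfl fun g _ => ?_
  beta_reduce
  rw [Finsupp.mapDomain_smul, smul_comm]

theorem ringAdj_add (a : MonoidAlgebra ℤ G) (f f' : Ω →₀ ℂ) :
    ringAdj a (f + f') = ringAdj a f + ringAdj a f' := by
  unfold ringAdj Finsupp.sum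
  rw [← Finset.sum_add_distrib]
  refine Finset.sum_congr rfl fun g _ => ?_
  beta_reduce
  rw [Finsupp.mapDomain_add, smul_add]

theorem ringAdj_smul (a : MonoidAlgebra ℤ G) (z : ℂ) (f : Ω →₀ ℂ) :
    ringAdj a (z • f) = z • ringAdj a f := by
  unfold ringAdj Finsupp.sum
  rw [Finset.smul_sum]
  refine Finset.sum_congr rfl fun g _ => ?_
  beta_reduce
  rw [Finsupp.mapDomain_smul, smul_comm]

/-- the coboundary as a linear map -/
def cobL (X : FinRes G) (Ω : Type) [MulAction G Ω] (i : ℕ) :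
    Coch X Ω i →ₗ[ℂ] Coch X Ω (i + 1) where
  toFun := cob X i
  map_add' c c' := by
    funext k
    unfold cob
    rw [Pi.add_apply, ← Finset.sum_add_distrib]
    exact Finset.sum_congr rfl fun j _ => ring_add _ _ _
  map_smul' z c := by
    funext k
    unfold cob
    rw [Pi.smul_apply, RingHom.id_apply, Finset.smul_sum]
    exact Finset.sum_congr rfl fun j _ => ring_smul _ _ _

/-- the adjoint as a linear map -/
def cobAdjL (X : FinRes G) (Ω : Type) [MulAction G Ω] (i : ℕ) :
    Coch X Ω (i + 1) →ₗ[ℂ] Coch X Ω i where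
  toFun := cobAdj X i
  map_add' c c' := by
    funext k
    unfold cobAdj
    rw [Pi.add_apply, ← Finset.sum_add_distrib]
    exact Finset.sum_congr rfl fun j _ => ringAdj_add _ _ _
  map_smul' z c := by
    funext k
    unfold cobAdj
    rw [Pi.smul_apply, RingHom.id_apply, Finset.smul_sum]
    exact Finset.sum_congr rfl fun j _ => ringAdj_smul _ _ _

/-! ### push forward along an orbit map -/

/-- the push forward of the cochains along an equivariant map -/
def push {n : ℕ} {Ω' : Type} (p : Ω → Ω') (c : Fin n → Ω →₀ ℂ) : Fin n → Ω' →₀ ℂ :=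
  fun j => (c j).mapDomain p

theorem ring_push {Ω' : Type} [MulAction G Ω'] (p : Ω → Ω') (hp : ∀ (g : G) x, p (g • x) = g • p x)
    (a : MonoidAlgebra ℤ G) (f : Ω →₀ ℂ) : ring a (f.mapDomain p) = (ring a f).mapDomain p := by
  unfold ring Finsupp.sum
  rw [Finsupp.mapDomain_finsetSum]
  refine Finset.sum_congr rfl fun g _ => ?_
  beta_reduce
  rw [Finsupp.mapDomain_smul, ← Finsupp.mapDomain_comp, ← Finsupp.mapDomain_comp]
  congr 2
  funext x
  exact (hp g x).symm

theorem ringAdj_push {Ω' : Type} [MulAction G Ω'] (p : Ω → Ω')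
    (hp : ∀ (g : G) x, p (g • x) = g • p x)
    (a : MonoidAlgebra ℤ G) (f : Ω →₀ ℂ) :
    ringAdj a (f.mapDomain p) = (ringAdj a f).mapDomain p := by
  unfold ringAdj Finsupp.sum
  rw [Finsupp.mapDomain_finsetSum]
  refine Finset.sum_congr rfl fun g _ => ?_
  beta_reduce
  rw [Finsupp.mapDomain_smul, ← Finsupp.mapDomain_comp, ← Finsupp.mapDomain_comp]
  congr 2
  funext x
  exact (hp g⁻¹ x).symm

theorem cob_push (X : FinRes G) (i : ℕ) {Ω' : Type} [MulAction G Ω'] (p : Ω → Ω')
    (hp : ∀ (g : G) x, p (g • x) = g • p x) (c : Coch X Ω i) :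
    cob X i (push p c) = push p (cob X i c) := by
  funext k
  unfold cob push
  rw [Finsupp.mapDomain_finsetSum]
  exact Finset.sum_congr rfl fun j _ => ring_push p hp _ _

theorem cobAdj_push (X : FinRes G) (i : ℕ) {Ω' : Type} [MulAction G Ω'] (p : Ω → Ω')
    (hp : ∀ (g : G) x, p (g • x) = g • p x) (c : Coch X Ω (i + 1)) :
    cobAdj X i (push p c) = push p (cobAdj X i c) := by
  funext k
  unfold cobAdj push
  rw [Finsupp.mapDomain_finsetSum]
  exact Finset.sum_congr rfl fun j _ => ringAdj_push p hp _ _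

/-! ### norms -/

theorem nsq_eq {n : ℕ} (c : Fin n → Ω →₀ ℂ) (S : Finset Ω) (h : ∀ j, (c j).support ⊆ S) :
    nsq c = ∑ j, ∑ x ∈ S, ‖c j x‖ ^ 2 := by
  unfold nsq
  refine Finset.sum_congr rfl fun j _ => ?_
  exact Finsupp.sum_of_support_subset _ (h j) _ (fun x _ => by simp)

theorem nsq_nonneg {n : ℕ} (c : Fin n → Ω →₀ ℂ) : 0 ≤ nsq c :=
  Finset.sum_nonneg fun _ _ => Finset.sum_nonneg fun _ _ => by positivity

theorem nsq_pos {n : ℕ} (c : Fin n → Ω →₀ ℂ) (hc : c ≠ 0) : 0 < nsq c := by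
  obtain ⟨j, hj⟩ : ∃ j, c j ≠ 0 := by
    by_contra h
    push Not at h
    exact hc (funext h)
  obtain ⟨x, hx⟩ : ∃ x, x ∈ (c j).support := by
    by_contra h
    push Not at h
    exact hj (Finsupp.support_eq_empty.1 (Finset.eq_empty_of_forall_notMem h))
  unfold nsq
  refine Finset.sum_pos' (fun _ _ => Finset.sum_nonneg fun _ _ => by positivity)
    ⟨j, Finset.mem_univ _, ?_⟩
  refine Finset.sum_pos' (fun _ _ => by positivity) ⟨x, hx, ?_⟩
  have : c j x ≠ 0 := Finsupp.mem_support_iff.1 hx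
  positivity

end

end Pool.Agent.L7h55.SE
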