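import Pool.Agent.L7h55.SE.Inf

/-!
# Finite-dimensional unitary representations
-/

set_option autoImplicit false
set_option linter.unusedSectionVars false

namespace Pool.Agent.L7h55.SE.FinD

open Filter Topology
open Pool.Agent.H919R4.ZS (FinRes L2 lregL)
open Pool.Agent.Q169.PT
open Pool.Agent.L7h55.SE Pool.Agent.L7h55.SE.Pow Pool.Agent.L7h55.SE.Inf

noncomputable section

variable {G H : Type} [Group G] [NormedAddCommGroup H] [InnerProductSpace ℂ H]

/-! ### uniform bounds -/

/-- the `ℓ¹`-norm on the group ring -/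
def n1 (a : MonoidAlgebra ℤ G) : ℝ := a.coeff.sum fun _ r => |(r : ℝ)|

theorem n1_nonneg (a : MonoidAlgebra ℤ G) : 0 ≤ n1 a := Finset.sum_nonneg fun _ _ => abs_nonneg _

theorem norm_alg_le (π : Rep G H) (a : MonoidAlgebra ℤ G) (v : H) : ‖π.alg a v‖ ≤ n1 a * ‖v‖ := by
  rw [alg_eq]
  unfold Rep.sum
  rw [Finsupp.sum_mapRange_index (by intro g; simp)]
  unfold n1 Finsupp.sum
  rw [Finset.sum_mul]
  refine (norm_sum_le _ _).trans (Finset.sum_le_sum fun g _ => ?_)
  rw [norm_smul, π.norm]
  refine mul_le_mul_of_nonneg_right (le_of_eq ?_) (norm_nonneg _)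
  rw [Complex.norm_intCast]

/-- the bound of a matrix -/
def n2 {a b : ℕ} (M : Matrix (Fin a) (Fin b) (MonoidAlgebra ℤ G)) : ℝ :=
  ∑ i, ∑ j, n1 (M i j) ^ 2

theorem q_le (π : Rep G H) {a b : ℕ} (M : Matrix (Fin a) (Fin b) (MonoidAlgebra ℤ G))
    (v : Fin b → H) : q (mo π M v) ≤ n2 M * q v := by
  unfold q n2
  rw [Finset.sum_mul]
  refine Finset.sum_le_sum fun i _ => ?_
  rw [mo_apply]
  have h1 : ‖∑ j, π.alg (M i j) (v j)‖ ≤ ∑ j, n1 (M i j) * ‖v j‖ :=
    (norm_sum_le _ _).trans (Finset.sum_le_sum fun j _ => norm_alg_le π _ _)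
  calc ‖∑ j, π.alg (M i j) (v j)‖ ^ 2 ≤ (∑ j, n1 (M i j) * ‖v j‖) ^ 2 :=
        pow_le_pow_left₀ (norm_nonneg _) h1 2
    _ ≤ _ := Finset.sum_mul_sq_le_sq_mul_sq _ _ _

/-! ### the Hilbert sum -/

/-- the Hilbert sum of copies of `H` -/
abbrev E2 (H : Type) [NormedAddCommGroup H] [InnerProductSpace ℂ H] (n : ℕ) : Type :=
  PiLp 2 fun _ : Fin n => H

/-- the identification with tuples -/
def ce (H : Type) [NormedAddCommGroup H] [InnerProductSpace ℂ H] (n : ℕ) :
    E2 H n ≃ₗ[ℂ] (Fin n → H) := WithLp.linearEquiv 2 ℂ (Fin n → H)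

theorem norm_sq_E2 {n : ℕ} (v : E2 H n) : ‖v‖ ^ 2 = q (ce H n v) := PiLp.norm_sq_eq_of_L2 _ v

theorem inner_E2 {n : ℕ} (u v : E2 H n) :
    (inner ℂ u v : ℂ) = ∑ j, inner ℂ (ce H n u j) (ce H n v j) := PiLp.inner_apply _ _

/-- the operator of a matrix on the Hilbert sum -/
def op (π : Rep G H) {n : ℕ} (M : Matrix (Fin n) (Fin n) (MonoidAlgebra ℤ G)) :
    E2 H n →ₗ[ℂ] E2 H n :=
  (ce H n).symm.toLinearMap ∘ₗ (mo π M).toLinearMap ∘ₗ (ce H n).toLinearMap

theorem ce_op (π : Rep G H) {n : ℕ} (M : Matrix (Fin n) (Fin n) (MonoidAlgebra ℤ G))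
    (v : E2 H n) : ce H n (op π M v) = mo π M (ce H n v) := rfl

theorem op_sym (π : Rep G H) {n : ℕ} {M : Matrix (Fin n) (Fin n) (MonoidAlgebra ℤ G)}
    (hM : Sy π M) : (op π M).IsSymmetric := by
  intro u v
  rw [inner_E2, inner_E2, ce_op, ce_op]
  exact hM _ _

/-- the trace of the operator of a matrix -/
theorem trace_op [FiniteDimensional ℂ H] (π : Rep G H) {n : ℕ}
    (M : Matrix (Fin n) (Fin n) (MonoidAlgebra ℤ G)) :
    LinearMap.trace ℂ (E2 H n) (op π M) =
      ∑ j, LinearMap.trace ℂ H (π.alg (M j j)).toLinearMap := by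
  classical
  let b := stdOrthonormalBasis ℂ H
  rw [LinearMap.trace_eq_sum_inner _ (Pi.orthonormalBasis fun _ : Fin n => b), Fintype.sum_sigma]
  refine Finset.sum_congr rfl fun j _ => ?_
  rw [LinearMap.trace_eq_sum_inner _ b]
  refine Finset.sum_congr rfl fun k _ => ?_
  rw [Pi.orthonormalBasis_apply, inner_E2, Finset.sum_eq_single j]
  · rw [ce_op]
    have h1 : ce H n (PiLp.single 2 j (b k)) = Pi.single j (b k) := rfl
    rw [h1, mo_single, Pi.single_eq_same]
    rfl
  · intro l _ hl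
    have h1 : ce H n (PiLp.single 2 j (b k)) = Pi.single j (b k) := rfl
    rw [h1, Pi.single_eq_of_ne hl, inner_zero_left]
  · intro h
    exact absurd (Finset.mem_univ _) h

/-- the trace of an element of the group ring -/
theorem trace_alg [FiniteDimensional ℂ H] (π : Rep G H) (a : MonoidAlgebra ℤ G) :
    LinearMap.trace ℂ H (π.alg a).toLinearMap =
      a.coeff.sum fun g r => (r : ℂ) * LinearMap.trace ℂ H (π.hom g).toLinearMap := by
  refine MonoidAlgebra.induction_linear a ?_ ?_ ?_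
  · rw [map_zero]
    simp
  · intro x y hx hy
    have h1 : (π.alg (x + y)).toLinearMap = (π.alg x).toLinearMap + (π.alg y).toLinearMap := by
      rw [map_add]
      rfl
    rw [h1, map_add, hx, hy, MonoidAlgebra.coeff_add, Finsupp.sum_add_index']
    · intro g
      simp
    · intro g r s
      rw [Int.cast_add, add_mul]
  · intro g r
    rw [MonoidAlgebra.coeff_single, Finsupp.sum_single_index (by simp)]
    have h1 : (π.alg (MonoidAlgebra.single g r)).toLinearMap =
        (r : ℂ) • (π.hom g).toLinearMap := by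
      ext v
      exact alg_single' π g r v
    rw [h1, map_smul, smul_eq_mul]

/-- the harmonic cochains -/
def harm (π : Rep G H) (X : FinRes G) (i : ℕ) : Submodule ℂ (Fin (X.n (i + 1)) → H) :=
  LinearMap.ker (mo π (X.d (i + 1))).toLinearMap ⊓ LinearMap.ker (mo π (stM (X.d i))).toLinearMap

/-- the energy of a cochain -/
def en (π : Rep G H) (X : FinRes G) (i : ℕ) (v : Fin (X.n (i + 1)) → H) : ℝ :=
  q (mo π (X.d (i + 1)) v) + q (mo π (stM (X.d i)) v)

/-- the gap above `ε` of the coboundary in degree `i` -/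
def Gp (π : Rep G H) (X : FinRes G) (i : ℕ) (ε : ℝ) : Prop :=
  ∃ κ : ℝ, ε < κ ∧ ∀ u : Fin (X.n i) → H,
    (∀ z : Fin (X.n i) → H, mo π (X.d i) z = 0 → ∑ j, (inner ℂ (z j) (u j) : ℂ) = 0) →
    κ * q u ≤ q (mo π (X.d i) u)

theorem adj_adj (π : Rep G H) (X : FinRes G) (i : ℕ) (y : Fin (X.n (i + 1 + 1)) → H) :
    mo π (stM (X.d i)) (mo π (stM (X.d (i + 1))) y) = 0 := by
  apply q_zero_iff
  rw [q_re, mo_adj, mo_adj, d_d]
  simp

/-- eigenvectors are coclosed, if there is a gap in the degree below -/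
theorem coclosed (π : Rep G H) (X : FinRes G) (i : ℕ) (ε δ : ℝ) (hδ : δ ≤ ε) (hG : Gp π X i ε)
    (v : Fin (X.n (i + 1)) → H) (hv : mo π (Lap X i) v = (δ : ℂ) • v) :
    mo π (stM (X.d i)) v = 0 := by
  obtain ⟨κ, hκ, hgap⟩ := hG
  set u := mo π (stM (X.d i)) v with hu
  have h1 := hgap u fun z hz => by
    rw [hu]
    have h := mo_adj π (X.d i) v z
    rw [hz] at h
    have h' := congrArg (starRingEnd ℂ) h
    simp only [map_sum, inner_conj_symm] at h'
    rw [h']
    simp
  have h2 : mo π (stM (X.d i)) (mo π (X.d i) u) = (δ : ℂ) • u := by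
    have h3 := congrArg (mo π (stM (X.d i))) hv
    rw [lap_apply, map_add, adj_adj, add_zero, map_smul] at h3
    exact h3
  have h4 : q (mo π (X.d i) u) = δ * q u := by
    rw [q_re, mo_adj', h2]
    have h5 : ∀ j, (inner ℂ (u j) (((δ : ℂ) • u) j) : ℂ) = (δ : ℂ) * inner ℂ (u j) (u j) := by
      intro j
      rw [Pi.smul_apply, inner_smul_right]
    rw [Finset.sum_congr rfl fun j _ => h5 j, ← Finset.mul_sum, ← q_eq, ← Complex.ofReal_mul,
      Complex.ofReal_re]
  rw [h4] at h1
  apply q_zero_iff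
  have h6 := q_nonneg u
  by_contra h7
  have h8 : 0 < q u := lt_of_le_of_ne h6 (Ne.symm h7)
  nlinarith

/-- **The spectral side.** -/
theorem spectral [FiniteDimensional ℂ H] (π : Rep G H) (X : FinRes G) (i : ℕ) (K : ℕ)
    (hK : n2 (Lap X i) ≤ (K : ℝ) ^ 2) (ε : ℝ) (m : ℕ) :
    ∃ V : Submodule ℂ (Fin (X.n (i + 1)) → H),
      (LinearMap.trace ℂ (E2 H (X.n (i + 1)))
        (op π (((K : ℤ) • 1 - Lap X i) ^ m * ((K : ℤ) • 1 - Lap X i) ^ m))).re ≤
        (Module.finrank ℂ V + Module.finrank ℂ (harm π X i)) * ((K : ℝ) ^ 2) ^ m +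
          Module.finrank ℂ (E2 H (X.n (i + 1))) * ((K - ε) ^ 2) ^ m ∧
      ∀ v ∈ V, en π X i v ≤ ε * q v ∧
        (∀ h ∈ harm π X i, ∑ j, (inner ℂ (h j) (v j) : ℂ) = 0) ∧
        (Gp π X i ε → mo π (stM (X.d i)) v = 0) := by
  classical
  set n := X.n (i + 1) with hn
  have hsym : (op π (Lap X i)).IsSymmetric := op_sym π (sy_lap π X i)
  set N := Module.finrank ℂ (E2 H n) with hN
  let b := hsym.eigenvectorBasis (n := N) rfl
  let δ : Fin N → ℝ := hsym.eigenvalues (n := N) rfl
  have hb : ∀ k, op π (Lap X i) (b k) = (δ k : ℂ) • b k := fun k =>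
    hsym.apply_eigenvectorBasis rfl k
  -- the values
  have hen : ∀ v : E2 H n, (inner ℂ v (op π (Lap X i) v) : ℂ).re = en π X i (ce H n v) := by
    intro v
    rw [inner_E2, ce_op, lap_inner]
    rfl
  have hbn : ∀ k, ‖b k‖ = 1 := fun k => b.orthonormal.1 k
  have hδe : ∀ k, δ k = en π X i (ce H n (b k)) := by
    intro k
    rw [← hen, hb, inner_smul_right, inner_self_eq_norm_sq_to_K, hbn]
    simp
  have hδ0 : ∀ k, 0 ≤ δ k := by
    intro k
    rw [hδe]
    exact add_nonneg (q_nonneg _) (q_nonneg _)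
  have hδK : ∀ k, δ k ≤ K := by
    intro k
    have h1 : ‖op π (Lap X i) (b k)‖ ^ 2 ≤ (K : ℝ) ^ 2 := by
      rw [norm_sq_E2, ce_op]
      refine (q_le π _ _).trans ?_
      rw [← norm_sq_E2, hbn]
      simpa using hK
    rw [hb, norm_smul, hbn, mul_one, Complex.norm_real, Real.norm_eq_abs, sq_abs] at h1
    exact (abs_le_of_sq_le_sq' h1 (Nat.cast_nonneg K)).2
  -- the trace
  have hT : ∀ k, op π ((K : ℤ) • 1 - Lap X i) (b k) = ((K - δ k : ℝ) : ℂ) • b k := by
    intro k
    apply (ce H n).injective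
    rw [ce_op, mo_sub, mo_smul, mo_one, ← ce_op, hb, map_smul, map_smul]
    rw [← Int.cast_smul_eq_zsmul ℂ, ← sub_smul]
    push_cast
    rfl
  have hTm : ∀ (m : ℕ) k, op π (((K : ℤ) • 1 - Lap X i) ^ m) (b k) =
      ((((K - δ k : ℝ)) ^ m : ℝ) : ℂ) • b k := by
    intro m k
    induction m with
    | zero =>
      apply (ce H n).injective
      rw [ce_op, pow_zero, mo_one, pow_zero]
      simp
    | succ m ih =>
      apply (ce H n).injective
      rw [ce_op, pow_succ', mo_mul, ← ce_op, ih, map_smul, map_smul, ← ce_op, hT, map_smul,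
        smul_smul]
      congr 1
      push_cast
      ring
  have htr : (LinearMap.trace ℂ (E2 H n)
      (op π (((K : ℤ) • 1 - Lap X i) ^ m * ((K : ℤ) • 1 - Lap X i) ^ m))).re =
      ∑ k, ((K - δ k) ^ 2) ^ m := by
    rw [LinearMap.trace_eq_sum_inner _ b, Complex.re_sum]
    refine Finset.sum_congr rfl fun k _ => ?_
    rw [← pow_add, hTm, inner_smul_right, inner_self_eq_norm_sq_to_K, hbn]
    have : (K - δ k) ^ (m + m) = ((K - δ k) ^ 2) ^ m := by
      rw [← pow_mul]
      congr 1
      ring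
    have e : ∀ z : ℝ, (((z : ℝ) : ℂ) * ((1 : ℝ) : ℂ) ^ 2).re = z := fun z => by
      rw [Complex.ofReal_one, one_pow, mul_one, Complex.ofReal_re]
    exact (e _).trans this
  -- the three kinds of eigenvectors
  let A : Finset (Fin N) := Finset.univ.filter fun k => 0 < δ k ∧ δ k ≤ ε
  let B : Finset (Fin N) := Finset.univ.filter fun k => δ k = 0
  let V : Submodule ℂ (Fin n → H) :=
    Submodule.span ℂ (Set.range fun k : A => ce H n (b k))
  have hli : LinearIndependent ℂ fun k : Fin N => ce H n (b k) :=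
    (b.orthonormal.linearIndependent).map' (ce H n).toLinearMap (ce H n).ker
  have hVdim : Module.finrank ℂ V = A.card := by
    have h1 : LinearIndependent ℂ fun k : A => ce H n (b k) :=
      hli.comp (fun k : A => (k : Fin N)) Subtype.val_injective
    rw [finrank_span_eq_card h1, Fintype.card_coe]
  have hBdim : B.card ≤ Module.finrank ℂ (harm π X i) := by
    have h1 : LinearIndependent ℂ fun k : B => ce H n (b k) :=
      hli.comp (fun k : B => (k : Fin N)) Subtype.val_injective
    have h2 : ∀ k : B, ce H n (b k) ∈ harm π X i := by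
      intro k
      have h3 : δ k = 0 := (Finset.mem_filter.1 k.2).2
      rw [hδe] at h3
      unfold en at h3
      have h4 := q_nonneg (mo π (X.d (i + 1)) (ce H n (b k)))
      have h5 := q_nonneg (mo π (stM (X.d i)) (ce H n (b k)))
      have h6 : q (mo π (X.d (i + 1)) (ce H n (b k))) = 0 := by linarith
      have h7 : q (mo π (stM (X.d i)) (ce H n (b k))) = 0 := by linarith
      exact ⟨q_zero_iff _ h6, q_zero_iff _ h7⟩
    have h6 : LinearIndependent ℂ fun k : B => (⟨ce H n (b k), h2 k⟩ : harm π X i) :=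
      LinearIndependent.of_comp (harm π X i).subtype h1
    have h7 := h6.fintype_card_le_finrank
    rwa [Fintype.card_coe] at h7
  refine ⟨V, ?_, ?_⟩
  · rw [htr]
    have hsplit : ∀ k, ((K - δ k) ^ 2) ^ m ≤
        (if 0 < δ k ∧ δ k ≤ ε then ((K : ℝ) ^ 2) ^ m else 0) +
        (if δ k = 0 then ((K : ℝ) ^ 2) ^ m else 0) + ((K - ε) ^ 2) ^ m := by
      intro k
      have h1 : ((K - δ k) ^ 2) ^ m ≤ ((K : ℝ) ^ 2) ^ m := by
        refine pow_le_pow_left₀ (sq_nonneg _) ?_ m
        exact pow_le_pow_left₀ (by linarith [hδK k]) (by linarith [hδ0 k]) 2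
      have h2 : 0 ≤ ((K - ε) ^ 2) ^ m := by positivity
      have h3 : 0 ≤ ((K : ℝ) ^ 2) ^ m := by positivity
      by_cases hk : 0 < δ k ∧ δ k ≤ ε
      · rw [if_pos hk]
        split_ifs <;> linarith
      · by_cases hk0 : δ k = 0
        · rw [if_neg hk, if_pos hk0]
          linarith
        · have h4 : 0 < δ k := lt_of_le_of_ne (hδ0 k) (Ne.symm hk0)
          have h5 : ε < δ k := by
            by_contra h6
            exact hk ⟨h4, not_lt.1 h6⟩
          rw [if_neg hk, if_neg hk0]
          have h7 : ((K - δ k) ^ 2) ^ m ≤ ((K - ε) ^ 2) ^ m := by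
            refine pow_le_pow_left₀ (sq_nonneg _) ?_ m
            exact pow_le_pow_left₀ (by linarith [hδK k]) (by linarith) 2
          linarith
    refine (Finset.sum_le_sum fun k _ => hsplit k).trans ?_
    rw [Finset.sum_add_distrib, Finset.sum_add_distrib, ← Finset.sum_filter, ← Finset.sum_filter,
      Finset.sum_const, Finset.sum_const, Finset.sum_const, nsmul_eq_mul, nsmul_eq_mul,
      nsmul_eq_mul, Finset.card_univ, Fintype.card_fin, hVdim]
    have h8 : (B.card : ℝ) ≤ Module.finrank ℂ (harm π X i) := by exact_mod_cast hBdim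
    have h9 : (B.card : ℝ) * ((K : ℝ) ^ 2) ^ m ≤
        Module.finrank ℂ (harm π X i) * ((K : ℝ) ^ 2) ^ m :=
      mul_le_mul_of_nonneg_right h8 (by positivity)
    rw [add_mul]
    linarith
  · -- the elements of `V`
    have hcoef : ∀ v ∈ V, ∀ k, k ∉ A → (inner ℂ (b k) ((ce H n).symm v) : ℂ) = 0 := by
      intro v hv k hk
      induction hv using Submodule.span_induction with
      | mem x hx =>
        obtain ⟨l, rfl⟩ := hx
        change (inner ℂ (b k) ((ce H n).symm (ce H n (b l))) : ℂ) = 0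
        rw [LinearEquiv.symm_apply_apply, b.orthonormal.2]
        intro h
        exact hk (h ▸ l.2)
      | zero => rw [map_zero, inner_zero_right]
      | add x y _ _ hx hy => rw [map_add, inner_add_right, hx, hy, add_zero]
      | smul z x _ hx => rw [map_smul, inner_smul_right, hx, mul_zero]
    intro v hv
    set w : E2 H n := (ce H n).symm v with hw
    have hcw : ce H n w = v := (ce H n).apply_symm_apply v
    refine ⟨?_, ?_, ?_⟩
    · -- the energy
      have h1 : en π X i v = ∑ k, δ k * ‖(inner ℂ (b k) w : ℂ)‖ ^ 2 := by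
        rw [← hcw, ← hen, ← b.sum_inner_mul_inner, Complex.re_sum]
        refine Finset.sum_congr rfl fun k _ => ?_
        rw [← hsym, hb, inner_smul_left, ← inner_conj_symm w (b k)]
        have h2 : (starRingEnd ℂ) (inner ℂ (b k) w) *
            ((starRingEnd ℂ) (δ k : ℂ) * inner ℂ (b k) w) =
            ((δ k * ‖(inner ℂ (b k) w : ℂ)‖ ^ 2 : ℝ) : ℂ) := by
          rw [Complex.conj_ofReal]
          have h3 := Complex.conj_mul' (inner ℂ (b k) w : ℂ)
          push_cast
          rw [← h3]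
          ring
        rw [h2, Complex.ofReal_re]
      have h4 : q v = ∑ k, ‖(inner ℂ (b k) w : ℂ)‖ ^ 2 := by
        rw [← hcw, ← norm_sq_E2, b.sum_sq_norm_inner_right]
      rw [h1, h4, Finset.mul_sum]
      refine Finset.sum_le_sum fun k _ => ?_
      by_cases hk : k ∈ A
      · exact mul_le_mul_of_nonneg_right (Finset.mem_filter.1 hk).2.2 (by positivity)
      · rw [hcoef v hv k hk]
        simp
    · -- orthogonality
      intro h hh
      have h1 : op π (Lap X i) ((ce H n).symm h) = 0 := by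
        apply (ce H n).injective
        rw [ce_op, LinearEquiv.apply_symm_apply, lap_apply]
        have h2 : mo π (X.d (i + 1)) h = 0 := hh.1
        have h3 : mo π (stM (X.d i)) h = 0 := hh.2
        rw [h2, h3, map_zero, map_zero, map_zero, add_zero]
      have h4 : ∀ k, k ∈ A → (inner ℂ ((ce H n).symm h) (b k) : ℂ) = 0 := by
        intro k hk
        have h5 : (inner ℂ (op π (Lap X i) ((ce H n).symm h)) (b k) : ℂ) =
          inner ℂ ((ce H n).symm h) (op π (Lap X i) (b k)) := hsym _ _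
        rw [h1, inner_zero_left, hb, inner_smul_right] at h5
        refine (mul_eq_zero.1 h5.symm).resolve_left ?_
        have h6 := (Finset.mem_filter.1 hk).2.1
        exact_mod_cast h6.ne'
      have h7 : ∑ j, (inner ℂ (h j) (v j) : ℂ) = inner ℂ ((ce H n).symm h) w := by
        rw [inner_E2, LinearEquiv.apply_symm_apply, hcw]
      rw [h7, ← b.sum_inner_mul_inner]
      refine Finset.sum_eq_zero fun k _ => ?_
      by_cases hk : k ∈ A
      · rw [h4 k hk, zero_mul]
      · rw [hcoef v hv k hk, mul_zero]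
    · -- coclosed
      intro hG
      induction hv using Submodule.span_induction with
      | mem x hx =>
        obtain ⟨l, rfl⟩ := hx
        refine coclosed π X i ε (δ l) (Finset.mem_filter.1 l.2).2.2 hG _ ?_
        rw [← ce_op, hb, map_smul]
      | zero => rw [map_zero]
      | add x y _ _ hx hy => rw [map_add, hx rfl (by simp), hy rfl (by simp), add_zero]
      | smul z x _ hx => rw [map_smul, hx rfl (by simp), smul_zero]

end

end Pool.Agent.L7h55.SE.FinD
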