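import Pool.Agent.L7h55.SE.Spec

/-!
# The traces of the powers of `K - Δ` decay slowly
-/

set_option autoImplicit false
set_option linter.unusedSectionVars false

namespace Pool.Agent.L7h55.SE.Inf

open Filter Topology
open Pool.Agent.H919R4.ZS (FinRes L2 lregL)
open Pool.Agent.Q169.PT
open Pool.Agent.Q169.PT.Br (E E_single E_apply norm_E dense hom_single)
open Pool.Agent.L7h55.SE Pool.Agent.L7h55.SE.Pow

noncomputable section

section gen

variable {G H : Type} [Group G] [NormedAddCommGroup H] [InnerProductSpace ℂ H]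

/-- the operator of a matrix is symmetric -/
def Sy (π : Rep G H) {n : ℕ} (T : Matrix (Fin n) (Fin n) (MonoidAlgebra ℤ G)) : Prop :=
  ∀ u v : Fin n → H, ∑ j, (inner ℂ (mo π T u j) (v j) : ℂ) = ∑ j, inner ℂ (u j) (mo π T v j)

variable (π : Rep G H)

theorem sy_lap (X : FinRes G) (i : ℕ) : Sy π (Lap X i) := by
  intro u v
  rw [lap_apply, lap_apply]
  simp only [Pi.add_apply, inner_add_left, inner_add_right, Finset.sum_add_distrib]
  rw [mo_adj' π (X.d i) _ v, mo_adj π (X.d i) u, mo_adj π (X.d (i + 1)) _ v,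
    mo_adj' π (X.d (i + 1)) u]

theorem sy_T (X : FinRes G) (i : ℕ) (K : ℤ) : Sy π (K • 1 - Lap X i) := by
  intro u v
  have h := sy_lap π X i u v
  simp only [mo_sub, mo_smul, mo_one, Pi.sub_apply, inner_sub_left, inner_sub_right,
    Finset.sum_sub_distrib, Pi.smul_apply, ← Int.cast_smul_eq_zsmul ℂ, inner_smul_left,
    inner_smul_right]
  rw [h]
  simp

theorem sy_pow {n : ℕ} {T : Matrix (Fin n) (Fin n) (MonoidAlgebra ℤ G)} (hT : Sy π T) (m : ℕ) :
    Sy π (T ^ m) := by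
  induction m with
  | zero =>
    intro u v
    rw [pow_zero, mo_one, mo_one]
  | succ m ih =>
    intro u v
    have e : T ^ (m + 1) = T * T ^ m := pow_succ' T m
    have e' : T ^ (m + 1) = T ^ m * T := pow_succ T m
    conv_lhs => rw [e]
    conv_rhs => rw [e']
    rw [mo_mul, mo_mul, hT, ih]

/-- Cauchy-Schwarz -/
theorem cs {n : ℕ} (u w : Fin n → H) : (∑ j, (inner ℂ (u j) (w j) : ℂ)).re ^ 2 ≤ q u * q w := by
  have h1 : |(∑ j, (inner ℂ (u j) (w j) : ℂ)).re| ≤ ∑ j, ‖u j‖ * ‖w j‖ := by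
    refine (Complex.abs_re_le_norm _).trans ((norm_sum_le _ _).trans ?_)
    exact Finset.sum_le_sum fun j _ => norm_inner_le_norm _ _
  calc (∑ j, (inner ℂ (u j) (w j) : ℂ)).re ^ 2 = |(∑ j, (inner ℂ (u j) (w j) : ℂ)).re| ^ 2 :=
        (sq_abs _).symm
    _ ≤ (∑ j, ‖u j‖ * ‖w j‖) ^ 2 := pow_le_pow_left₀ (abs_nonneg _) h1 2
    _ ≤ _ := Finset.sum_mul_sq_le_sq_mul_sq _ _ _

/-- logarithmic convexity -/
theorem growth {n : ℕ} {T : Matrix (Fin n) (Fin n) (MonoidAlgebra ℤ G)} (hT : Sy π T) (r : ℝ)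
    (hr : 0 < r) (v : Fin n → H) (hv : 0 < q v)
    (h1 : r * q v ≤ (∑ j, (inner ℂ (v j) (mo π T v j) : ℂ)).re) (m : ℕ) :
    0 < q (mo π (T ^ m) v) ∧ r ^ 2 * q (mo π (T ^ m) v) ≤ q (mo π (T ^ (m + 1)) v) := by
  induction m with
  | zero =>
    rw [pow_zero, mo_one, zero_add, pow_one]
    refine ⟨hv, ?_⟩
    have h2 := cs v (mo π T v)
    have h3 : (r * q v) ^ 2 ≤ q v * q (mo π T v) :=
      (pow_le_pow_left₀ (by positivity) h1 2).trans h2
    have h4 : q v * (r ^ 2 * q v) ≤ q v * q (mo π T v) := by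
      refine le_trans (le_of_eq ?_) h3
      ring
    exact le_of_mul_le_mul_left h4 hv
  | succ m ih =>
    obtain ⟨h2, h3⟩ := ih
    have h4 : 0 < q (mo π (T ^ (m + 1)) v) := lt_of_lt_of_le (by positivity) h3
    refine ⟨h4, ?_⟩
    have h5 := cs (mo π (T ^ m) v) (mo π (T ^ (m + 1 + 1)) v)
    have h6 : (∑ j, (inner ℂ (mo π (T ^ m) v j) (mo π (T ^ (m + 1 + 1)) v j) : ℂ)).re =
        q (mo π (T ^ (m + 1)) v) := by
      rw [q_re, pow_succ' T (m + 1), mo_mul, ← hT, ← mo_mul, ← pow_succ' T m]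
    rw [h6] at h5
    have h7 : q (mo π (T ^ m) v) * (r ^ 2 * q (mo π (T ^ (m + 1)) v)) ≤
        q (mo π (T ^ m) v) * q (mo π (T ^ (m + 1 + 1)) v) := by
      calc q (mo π (T ^ m) v) * (r ^ 2 * q (mo π (T ^ (m + 1)) v)) =
          (r ^ 2 * q (mo π (T ^ m) v)) * q (mo π (T ^ (m + 1)) v) := by ring
        _ ≤ q (mo π (T ^ (m + 1)) v) * q (mo π (T ^ (m + 1)) v) :=
          mul_le_mul_of_nonneg_right h3 h4.le
        _ = q (mo π (T ^ (m + 1)) v) ^ 2 := by ring
        _ ≤ _ := h5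
    exact le_of_mul_le_mul_left h7 h2

theorem growth' {n : ℕ} {T : Matrix (Fin n) (Fin n) (MonoidAlgebra ℤ G)} (hT : Sy π T) (r : ℝ)
    (hr : 0 < r) (v : Fin n → H) (hv : 0 < q v)
    (h1 : r * q v ≤ (∑ j, (inner ℂ (v j) (mo π T v j) : ℂ)).re) (m : ℕ) :
    (r ^ 2) ^ m * q v ≤ q (mo π (T ^ m) v) := by
  induction m with
  | zero => rw [pow_zero, pow_zero, mo_one, one_mul]
  | succ m ih =>
    refine le_trans ?_ (growth π hT r hr v hv h1 m).2
    calc (r ^ 2) ^ (m + 1) * q v = r ^ 2 * ((r ^ 2) ^ m * q v) := by ring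
      _ ≤ _ := mul_le_mul_of_nonneg_left ih (sq_nonneg _)

/-- the triangle inequality -/
theorem tri {n : ℕ} {ι : Type} (s : Finset ι) (a : ι → ℂ) (f : ι → Fin n → H) (B : ℝ) (hB : 0 ≤ B)
    (hf : ∀ k ∈ s, q (f k) ≤ B) :
    q (∑ k ∈ s, a k • f k) ≤ (∑ k ∈ s, ‖a k‖) ^ 2 * B := by
  have hn : ∀ v : Fin n → H, ‖(WithLp.toLp 2 v : PiLp 2 fun _ : Fin n => H)‖ ^ 2 = q v := by
    intro v
    rw [PiLp.norm_sq_eq_of_L2]
    rfl
  have hs : (WithLp.toLp 2 (∑ k ∈ s, a k • f k) : PiLp 2 fun _ : Fin n => H) =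
      ∑ k ∈ s, a k • (WithLp.toLp 2 (f k) : PiLp 2 fun _ : Fin n => H) := by
    classical
    induction s using Finset.induction_on with
    | empty => simp
    | insert k s hk ih =>
      rw [Finset.sum_insert hk, Finset.sum_insert hk, WithLp.toLp_add, WithLp.toLp_smul,
        ih fun k hk => hf k (Finset.mem_insert_of_mem hk)]
  have h1 : ‖(WithLp.toLp 2 (∑ k ∈ s, a k • f k) : PiLp 2 fun _ : Fin n => H)‖ ≤
      (∑ k ∈ s, ‖a k‖) * Real.sqrt B := by
    rw [hs, Finset.sum_mul]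
    refine (norm_sum_le _ _).trans (Finset.sum_le_sum fun k hk => ?_)
    rw [norm_smul]
    refine mul_le_mul_of_nonneg_left ?_ (norm_nonneg _)
    refine Real.le_sqrt_of_sq_le ?_
    rw [hn]
    exact hf k hk
  rw [← hn]
  calc ‖(WithLp.toLp 2 (∑ k ∈ s, a k • f k) : PiLp 2 fun _ : Fin n => H)‖ ^ 2 ≤
      ((∑ k ∈ s, ‖a k‖) * Real.sqrt B) ^ 2 := pow_le_pow_left₀ (norm_nonneg _) h1 2
    _ = _ := by rw [mul_pow, Real.sq_sqrt hB]

end gen

section reg

variable {G : Type} [Group G] [DecidableEq G]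

/-- the norm of a translate -/
theorem norm_alg (a : MonoidAlgebra ℤ G) (g : G) :
    ‖(reg G).alg a (E (Finsupp.single g 1))‖ ^ 2 =
      ‖(reg G).alg a (E (Finsupp.single 1 1))‖ ^ 2 := by
  rw [alg_E, alg_E, norm_E, norm_E]
  have h1 : (Finsupp.single g 1 : G →₀ ℂ) = (Finsupp.single 1 1 : G →₀ ℂ).mapDomain fun x => x * g := by
    rw [Finsupp.mapDomain_single, one_mul]
  rw [h1, ring_push (fun x => x * g) (fun h x => by rw [smul_eq_mul, smul_eq_mul, mul_assoc])]
  unfold Pool.Agent.Q169.PT.Pub.nsq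
  rw [Finsupp.sum_mapDomain_index_inj (mul_left_injective g)]

/-- the coefficient at the unit element -/
theorem inner_alg (a : MonoidAlgebra ℤ G) :
    (inner ℂ (E (Finsupp.single 1 1)) ((reg G).alg a (E (Finsupp.single 1 1))) : ℂ) =
      ((a.coeff 1 : ℤ) : ℂ) := by
  rw [alg_E, E_single]
  have h1 := lp.inner_single_left (𝕜 := ℂ) (G := fun _ : G => ℂ) (1 : G) (1 : ℂ) (E (ring a (Finsupp.single 1 1)))
  rw [h1, E_apply]
  have h2 : ring a (Finsupp.single (1 : G) (1 : ℂ)) 1 = ((a.coeff 1 : ℤ) : ℂ) := by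
    unfold ring Finsupp.sum
    rw [Finsupp.finsetSum_apply]
    have h3 : ∀ g ∈ a.coeff.support, (((a.coeff g : ℤ) : ℂ) •
        (Finsupp.single (1 : G) (1 : ℂ)).mapDomain fun x => g • x) 1 =
        if g = 1 then ((a.coeff g : ℤ) : ℂ) else 0 := by
      intro g _
      rw [Finsupp.mapDomain_single, Finsupp.smul_apply, Finsupp.single_apply, smul_eq_mul,
        smul_eq_mul, mul_one]
      split_ifs <;> simp
    rw [Finset.sum_congr rfl h3, Finset.sum_ite_eq']
    split_ifs with h4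
    · rfl
    · rw [Finsupp.notMem_support_iff.1 h4]
      simp
  rw [h2]
  simp

/-- the trace of a square -/
theorem trace_sq {n : ℕ} {S : Matrix (Fin n) (Fin n) (MonoidAlgebra ℤ G)} (hS : Sy (reg G) S) :
    (((∑ j, ((S * S) j j).coeff 1 : ℤ) : ℤ) : ℝ) =
      ∑ j, q (mo (reg G) S (Pi.single j (E (Finsupp.single 1 1)))) := by
  rw [Int.cast_sum]
  refine Finset.sum_congr rfl fun j _ => ?_
  have h1 := q_eq (mo (reg G) S (Pi.single j (E (Finsupp.single 1 1))))
  rw [hS, ← mo_mul] at h1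
  have h2 : ∑ x, (inner ℂ ((Pi.single j (E (Finsupp.single 1 1)) : Fin n → L2 G) x)
      (mo (reg G) (S * S) (Pi.single j (E (Finsupp.single 1 1))) x) : ℂ) =
      (((S * S) j j).coeff 1 : ℤ) := by
    rw [Finset.sum_eq_single j]
    · rw [Pi.single_eq_same, mo_single, inner_alg]
    · intro k _ hk
      rw [Pi.single_eq_of_ne hk, inner_zero_left]
    · intro h
      exact absurd (Finset.mem_univ _) h
  rw [h2] at h1
  exact_mod_cast h1.symm

/-- **The traces of the powers are large.** -/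
theorem exists_large (X : FinRes G) (i : ℕ) (ε : ℝ) (hε : 0 < ε)
    (hz : ∃ c : Coch X G (i + 1), c ≠ 0 ∧
      nsq (cob X (i + 1) c) + nsq (cobAdj X i c) ≤ (ε / 2) * nsq c) (K : ℕ) (hK : ε ≤ K) :
    ∃ m : ℕ, (X.n (i + 1) : ℝ) * ((K - ε) ^ 2) ^ m <
      (((∑ j, ((((K : ℤ) • 1 - Lap X i) ^ m * ((K : ℤ) • 1 - Lap X i) ^ m) j j).coeff 1 : ℤ) : ℤ) :
        ℝ) := by
  set T := (K : ℤ) • 1 - Lap X i with hT
  have hS : Sy (reg G) T := sy_T (reg G) X i K
  by_contra hcon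
  push Not at hcon
  obtain ⟨c, hc0, hc⟩ := hz
  set v : Fin (X.n (i + 1)) → L2 G := Et c with hv
  have hq : 0 < q v := by
    rw [hv, q_Et]
    exact nsq_pos c hc0
  set r : ℝ := K - ε / 2 with hr
  have hr0 : 0 < r := by linarith
  have h1 : r * q v ≤ (∑ j, (inner ℂ (v j) (mo (reg G) T v j) : ℂ)).re := by
    have h2 : (∑ j, (inner ℂ (v j) (mo (reg G) T v j) : ℂ)).re =
        K * q v - (∑ j, (inner ℂ (v j) (mo (reg G) (Lap X i) v j) : ℂ)).re := by
      rw [hT, mo_sub, mo_smul, mo_one]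
      simp only [Pi.sub_apply, inner_sub_right, Finset.sum_sub_distrib, Pi.smul_apply,
        ← Int.cast_smul_eq_zsmul ℂ, inner_smul_right]
      rw [← Finset.mul_sum, ← q_eq, Complex.sub_re]
      simp
    have h3 : q v = nsq c := by rw [hv, q_Et]
    rw [h2, h3, lap_inner, mo_Et, moAdj_Et]
    simp only [q_Et]
    have h3' : r * nsq c = K * nsq c - ε / 2 * nsq c := by
      rw [hr]
      ring
    linarith
  -- the upper bound
  let s : Finset (Σ _ : Fin (X.n (i + 1)), G) := Finset.univ.sigma fun j => (c j).support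
  have hvs : v = ∑ k ∈ s, (c k.1 k.2) •
      (Pi.single k.1 (E (Finsupp.single k.2 1)) : Fin (X.n (i + 1)) → L2 G) := by
    rw [Finset.sum_sigma]
    have h4 : ∀ j, ∑ g ∈ (c j).support, (c j g) •
        (Pi.single j (E (Finsupp.single g 1)) : Fin (X.n (i + 1)) → L2 G) = Pi.single j (E (c j)) := by
      intro j
      have h5 : E (c j) = ∑ g ∈ (c j).support, (c j g) • E (Finsupp.single g 1) := by
        conv_lhs => rw [← Finsupp.sum_single (c j)]
        unfold Finsupp.sum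
        rw [map_sum]
        refine Finset.sum_congr rfl fun g _ => ?_
        rw [← map_smul, Finsupp.smul_single, smul_eq_mul, mul_one]
      rw [h5]
      have h6 := map_sum (LinearMap.single ℂ (fun _ : Fin (X.n (i + 1)) => L2 G) j)
        (fun g => (c j g) • E (Finsupp.single g 1)) (c j).support
      refine Eq.trans ?_ h6.symm
      refine Finset.sum_congr rfl fun g _ => ?_
      rw [map_smul]
      rfl
    simp only [h4]
    funext j
    rw [Finset.sum_apply, Finset.sum_eq_single j]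
    · rw [Pi.single_eq_same]
      rfl
    · intro k _ hk
      rw [Pi.single_eq_of_ne hk.symm]
    · intro h
      exact absurd (Finset.mem_univ _) h
  have hup : ∀ m : ℕ, q (mo (reg G) (T ^ m) v) ≤
      (∑ k ∈ s, ‖c k.1 k.2‖) ^ 2 * (X.n (i + 1) * ((K - ε) ^ 2) ^ m) := by
    intro m
    have h7 : mo (reg G) (T ^ m) v = ∑ k ∈ s, (c k.1 k.2) •
        mo (reg G) (T ^ m) (Pi.single k.1 (E (Finsupp.single k.2 1))) := by
      conv_lhs => rw [hvs]
      rw [map_sum]
      exact Finset.sum_congr rfl fun k _ => map_smul _ _ _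
    rw [h7]
    refine tri s _ _ _ (by positivity) fun k _ => ?_
    refine le_trans ?_ (hcon m)
    rw [trace_sq (sy_pow (reg G) hS m)]
    have h8 : q (mo (reg G) (T ^ m) (Pi.single k.1 (E (Finsupp.single k.2 1)))) =
        q (mo (reg G) (T ^ m) (Pi.single k.1 (E (Finsupp.single 1 1)))) := by
      unfold q
      refine Finset.sum_congr rfl fun l _ => ?_
      rw [mo_single, mo_single, norm_alg]
    rw [h8]
    exact Finset.single_le_sum
      (f := fun j => q (mo (reg G) (T ^ m) (Pi.single j (E (Finsupp.single 1 1)))))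
      (fun _ _ => q_nonneg _) (Finset.mem_univ k.1)
  -- comparison
  set A : ℝ := (∑ k ∈ s, ‖c k.1 k.2‖) ^ 2 * X.n (i + 1) with hA
  have hA0 : 0 ≤ A := by positivity
  have hlow := growth' (reg G) hS r hr0 v hq h1
  have hcmp : ∀ m : ℕ, (r ^ 2) ^ m * q v ≤ A * ((K - ε) ^ 2) ^ m := by
    intro m
    refine ((hlow m).trans (hup m)).trans (le_of_eq ?_)
    rw [hA]
    ring
  have hKε : 0 ≤ (K : ℝ) - ε := by linarith
  have hlt : ((K : ℝ) - ε) ^ 2 < r ^ 2 := by
    refine pow_lt_pow_left₀ ?_ hKε (by norm_num)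
    rw [hr]
    linarith
  have hr2 : 0 < r ^ 2 := by positivity
  have htend : Tendsto (fun m : ℕ => A * (((K : ℝ) - ε) ^ 2 / r ^ 2) ^ m) atTop (𝓝 (A * 0)) :=
    (tendsto_pow_atTop_nhds_zero_of_lt_one (by positivity) ((div_lt_one hr2).2 hlt)).const_mul _
  rw [mul_zero] at htend
  obtain ⟨m, hm⟩ := (htend.eventually (gt_mem_nhds hq)).exists
  have h9 := hcmp m
  rw [div_pow, ← mul_div_assoc, div_lt_iff₀ (by positivity)] at hm
  linarith

end reg

end

end Pool.Agent.L7h55.SE.Inf
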