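import Pool.Agent.Q169.PT.Stm

/-!
# Permutation representations
-/

set_option autoImplicit false
set_option linter.unusedSectionVars false

namespace Pool.Agent.L7h55.SE.Perm

open Pool.Agent.Q169.PT

noncomputable section

variable {G : Type} [Group G] (Ω : Type) [Fintype Ω] [MulAction G Ω]

/-- the action of one element of the group -/
def permHom (g : G) : EuclideanSpace ℂ Ω →L[ℂ] EuclideanSpace ℂ Ω :=
  (LinearIsometryEquiv.piLpCongrLeft 2 ℂ ℂ
    (MulAction.toPerm g : Equiv.Perm Ω)).toContinuousLinearEquiv.toContinuousLinearMap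

theorem permHom_apply (g : G) (f : EuclideanSpace ℂ Ω) (x : Ω) :
    permHom Ω g f x = f (g⁻¹ • x) := rfl

theorem permHom_one : permHom Ω (1 : G) = 1 := by
  ext f x
  have h : (MulAction.toPerm (1 : G) : Equiv.Perm Ω).symm x = x := by
    change (1 : G)⁻¹ • x = x
    rw [inv_one, one_smul]
  change f ((MulAction.toPerm (1 : G) : Equiv.Perm Ω).symm x) = f x
  rw [h]

theorem permHom_mul (g h : G) : permHom Ω (g * h) = permHom Ω g * permHom Ω h := by
  ext f x
  have e : (MulAction.toPerm (g * h) : Equiv.Perm Ω).symm x =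
      (MulAction.toPerm h : Equiv.Perm Ω).symm
        ((MulAction.toPerm g : Equiv.Perm Ω).symm x) := by
    change (g * h)⁻¹ • x = h⁻¹ • g⁻¹ • x
    rw [mul_inv_rev, mul_smul]
  change f ((MulAction.toPerm (g * h) : Equiv.Perm Ω).symm x) =
    f ((MulAction.toPerm h : Equiv.Perm Ω).symm ((MulAction.toPerm g : Equiv.Perm Ω).symm x))
  rw [e]

theorem norm_permHom (g : G) (f : EuclideanSpace ℂ Ω) : ‖permHom Ω g f‖ = ‖f‖ :=
  (LinearIsometryEquiv.piLpCongrLeft 2 ℂ ℂ (MulAction.toPerm g : Equiv.Perm Ω)).norm_map f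

/-- The unitary representation of `G` on the functions on a finite `G`-set,
`(π(g) f)(x) = f(g⁻¹ x)`. -/
def perm : Rep G (EuclideanSpace ℂ Ω) where
  hom :=
    { toFun := permHom Ω
      map_one' := permHom_one Ω
      map_mul' := permHom_mul Ω }
  norm := norm_permHom Ω

theorem perm_apply (g : G) (f : EuclideanSpace ℂ Ω) (x : Ω) :
    (perm Ω).hom g f x = f (g⁻¹ • x) := rfl

/-- the trace is the number of fixed points -/
theorem trace_perm (g : G) :
    LinearMap.trace ℂ (EuclideanSpace ℂ Ω) ((perm Ω).hom g).toLinearMap =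
      ({x : Ω | g • x = x}.ncard : ℂ) := by
  classical
  rw [LinearMap.trace_eq_sum_inner _ (EuclideanSpace.basisFun Ω ℂ)]
  have h1 : ∀ x : Ω, (inner ℂ (EuclideanSpace.basisFun Ω ℂ x)
      (((perm Ω).hom g).toLinearMap (EuclideanSpace.basisFun Ω ℂ x)) : ℂ) =
      if g • x = x then 1 else 0 := by
    intro x
    rw [EuclideanSpace.basisFun_apply, EuclideanSpace.inner_single_left]
    change (starRingEnd ℂ) 1 * ((perm Ω).hom g (EuclideanSpace.single x 1) x) = _
    rw [perm_apply, map_one, one_mul, PiLp.single_apply]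
    by_cases hx : g • x = x
    · rw [if_pos hx, if_pos (by rw [inv_smul_eq_iff, hx])]
    · rw [if_neg hx, if_neg (fun h => hx (by rw [inv_smul_eq_iff] at h; exact h.symm))]
  rw [Finset.sum_congr rfl fun x _ => h1 x, Finset.sum_ite, Finset.sum_const_zero, add_zero,
    Finset.sum_const, nsmul_eq_mul, mul_one]
  congr 1
  rw [Set.ncard_eq_toFinset_card']
  congr 1
  ext x
  simp

end

end Pool.Agent.L7h55.SE.Perm
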