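import Pool.Agent.Q169.PT.Deg

/-!
# A spectral gap of the regular representation in degree one kills the tempered cocycles
-/

set_option autoImplicit false
set_option linter.unusedSectionVars false

namespace Pool.Agent.L7h55.SE.Pow

open scoped Matrix
open Pool.Agent.H919R4.ZS (FinRes L2 augm eps eps_add eps_neg eps_sub eps_smul eps_zsmul
  eps_single eps_d exists_lift augm_single)
open Pool.Agent.Q169.PT

noncomputable section

variable {G H : Type} [Group G] [NormedAddCommGroup H] [InnerProductSpace ℂ H]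

/-- matrices over the group ring act on tuples -/
def mo (π : Rep G H) {a b : ℕ} (M : Matrix (Fin a) (Fin b) (MonoidAlgebra ℤ G)) :
    (Fin b → H) →L[ℂ] (Fin a → H) :=
  ContinuousLinearMap.pi fun i => ∑ j, (π.alg (M i j)) ∘L (ContinuousLinearMap.proj j)

variable (π : Rep G H)

theorem mo_apply {a b : ℕ} (M : Matrix (Fin a) (Fin b) (MonoidAlgebra ℤ G)) (v : Fin b → H)
    (i : Fin a) : mo π M v i = ∑ j, π.alg (M i j) (v j) := by
  unfold mo
  rw [ContinuousLinearMap.pi_apply, sum_apply]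
  rfl

theorem mo_dm (X : FinRes G) (i : ℕ) (v : Fin (X.n i) → H) : mo π (X.d i) v = dm π X i v := by
  funext k
  rw [mo_apply]
  rfl

theorem mo_mul {a b c : ℕ} (M : Matrix (Fin a) (Fin b) (MonoidAlgebra ℤ G))
    (N : Matrix (Fin b) (Fin c) (MonoidAlgebra ℤ G)) (v : Fin c → H) :
    mo π (M * N) v = mo π M (mo π N v) := by
  funext i
  simp only [mo_apply, Matrix.mul_apply, map_sum, map_mul, sum_apply, mul_apply_eq_comp]
  rw [Finset.sum_comm]

theorem mo_add {a b : ℕ} (M N : Matrix (Fin a) (Fin b) (MonoidAlgebra ℤ G)) (v : Fin b → H) :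
    mo π (M + N) v = mo π M v + mo π N v := by
  funext i
  simp only [mo_apply, Matrix.add_apply, map_add, Pi.add_apply, add_apply,
    Finset.sum_add_distrib]

theorem mo_neg {a b : ℕ} (M : Matrix (Fin a) (Fin b) (MonoidAlgebra ℤ G)) (v : Fin b → H) :
    mo π (-M) v = - mo π M v := by
  funext i
  simp only [mo_apply, Matrix.neg_apply, map_neg, Pi.neg_apply, neg_apply, Finset.sum_neg_distrib]

theorem mo_sub {a b : ℕ} (M N : Matrix (Fin a) (Fin b) (MonoidAlgebra ℤ G)) (v : Fin b → H) :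
    mo π (M - N) v = mo π M v - mo π N v := by
  rw [sub_eq_add_neg, mo_add, mo_neg, sub_eq_add_neg]

theorem mo_zero {a b : ℕ} (v : Fin b → H) :
    mo π (0 : Matrix (Fin a) (Fin b) (MonoidAlgebra ℤ G)) v = 0 := by
  funext i
  simp [mo_apply]

theorem mo_one {a : ℕ} (v : Fin a → H) :
    mo π (1 : Matrix (Fin a) (Fin a) (MonoidAlgebra ℤ G)) v = v := by
  funext i
  rw [mo_apply, Finset.sum_eq_single i]
  · rw [Matrix.one_apply_eq, map_one]
    rfl
  · intro j _ hj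
    rw [Matrix.one_apply_ne hj.symm, map_zero]
    rfl
  · intro h
    exact absurd (Finset.mem_univ _) h

theorem mo_smul {a b : ℕ} (r : ℤ) (M : Matrix (Fin a) (Fin b) (MonoidAlgebra ℤ G)) (v : Fin b → H) :
    mo π (r • M) v = r • mo π M v := by
  funext i
  rw [Pi.smul_apply, mo_apply, mo_apply, Finset.smul_sum]
  refine Finset.sum_congr rfl fun j _ => ?_
  rw [Matrix.smul_apply, map_zsmul]
  rfl

/-! ### the adjoint -/

/-- the involution of the group ring -/
def st (a : MonoidAlgebra ℤ G) : MonoidAlgebra ℤ G :=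
  a.coeff.sum fun g r => MonoidAlgebra.single g⁻¹ r

theorem st_zero : st (0 : MonoidAlgebra ℤ G) = 0 := by
  unfold st
  simp

theorem st_add (a b : MonoidAlgebra ℤ G) : st (a + b) = st a + st b := by
  unfold st
  rw [MonoidAlgebra.coeff_add, Finsupp.sum_add_index']
  · intro g
    simp
  · intro g r r'
    rw [MonoidAlgebra.single_add]

theorem st_single (g : G) (r : ℤ) :
    st (MonoidAlgebra.single g r) = MonoidAlgebra.single g⁻¹ r := by
  unfold st
  rw [MonoidAlgebra.coeff_single, Finsupp.sum_single_index]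
  simp

theorem hom_inner (g : G) (x y : H) : inner ℂ (π.hom g x) (π.hom g y) = (inner ℂ x y : ℂ) := by
  let I : H →ₗᵢ[ℂ] H := ⟨(π.hom g : H →ₗ[ℂ] H), π.norm g⟩
  exact I.inner_map_map x y

theorem hom_adj (g : G) (x y : H) : inner ℂ (π.hom g⁻¹ x) y = (inner ℂ x (π.hom g y) : ℂ) := by
  rw [← hom_inner π g (π.hom g⁻¹ x) y]
  congr 1
  have : π.hom g (π.hom g⁻¹ x) = (π.hom g * π.hom g⁻¹) x := rfl
  rw [this, ← map_mul, mul_inv_cancel, map_one]
  rfl

theorem alg_single' (g : G) (r : ℤ) (x : H) :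
    π.alg (MonoidAlgebra.single g r) x = (r : ℂ) • π.hom g x := by
  rw [alg_single, Int.cast_smul_eq_zsmul]
  rfl

theorem alg_adj (a : MonoidAlgebra ℤ G) (x y : H) :
    inner ℂ (π.alg (st a) x) y = (inner ℂ x (π.alg a y) : ℂ) := by
  refine MonoidAlgebra.induction_linear a ?_ ?_ ?_
  · rw [st_zero, map_zero]
    simp
  · intro b c hb hc
    rw [st_add, map_add, map_add]
    change inner ℂ (π.alg (st b) x + π.alg (st c) x) y = inner ℂ x (π.alg b y + π.alg c y)
    rw [inner_add_left, inner_add_right, hb, hc]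
  · intro g r
    rw [st_single, alg_single', alg_single', inner_smul_left, inner_smul_right, hom_adj]
    simp

/-- the adjoint matrix -/
def stM {a b : ℕ} (M : Matrix (Fin a) (Fin b) (MonoidAlgebra ℤ G)) :
    Matrix (Fin b) (Fin a) (MonoidAlgebra ℤ G) := fun i j => st (M j i)

theorem mo_adj {a b : ℕ} (M : Matrix (Fin a) (Fin b) (MonoidAlgebra ℤ G)) (u : Fin a → H)
    (v : Fin b → H) :
    ∑ j, (inner ℂ (mo π (stM M) u j) (v j) : ℂ) = ∑ i, inner ℂ (u i) (mo π M v i) := by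
  simp only [mo_apply, sum_inner, inner_sum, stM, alg_adj]
  rw [Finset.sum_comm]

/-- the square of the norm of a tuple -/
def q {n : ℕ} (v : Fin n → H) : ℝ := ∑ j, ‖v j‖ ^ 2

theorem q_nonneg {n : ℕ} (v : Fin n → H) : 0 ≤ q v := Finset.sum_nonneg fun _ _ => by positivity

theorem q_eq {n : ℕ} (v : Fin n → H) : ((q v : ℝ) : ℂ) = ∑ j, inner ℂ (v j) (v j) := by
  unfold q
  rw [Complex.ofReal_sum]
  refine Finset.sum_congr rfl fun j _ => ?_
  rw [inner_self_eq_norm_sq_to_K]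
  norm_cast

theorem q_re {n : ℕ} (v : Fin n → H) : q v = (∑ j, (inner ℂ (v j) (v j) : ℂ)).re := by
  rw [← q_eq, Complex.ofReal_re]

theorem q_zero_iff {n : ℕ} (v : Fin n → H) (h : q v = 0) : v = 0 := by
  funext j
  unfold q at h
  rw [Finset.sum_eq_zero_iff_of_nonneg (fun _ _ => by positivity)] at h
  have := h j (Finset.mem_univ j)
  simpa using this

/-- matrices are bounded -/
theorem q_mo {a b : ℕ} (M : Matrix (Fin a) (Fin b) (MonoidAlgebra ℤ G)) :
    ∃ C : ℝ, 0 ≤ C ∧ ∀ v : Fin b → H, q (mo π M v) ≤ C * q v := by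
  refine ⟨∑ i, ∑ j, ‖π.alg (M i j)‖ ^ 2, Finset.sum_nonneg fun _ _ =>
    Finset.sum_nonneg fun _ _ => by positivity, fun v => ?_⟩
  unfold q
  rw [Finset.sum_mul]
  refine Finset.sum_le_sum fun i _ => ?_
  rw [mo_apply]
  have h1 : ‖∑ j, π.alg (M i j) (v j)‖ ≤ ∑ j, ‖π.alg (M i j)‖ * ‖v j‖ :=
    (norm_sum_le _ _).trans (Finset.sum_le_sum fun j _ => (π.alg (M i j)).le_opNorm _)
  calc ‖∑ j, π.alg (M i j) (v j)‖ ^ 2 ≤ (∑ j, ‖π.alg (M i j)‖ * ‖v j‖) ^ 2 :=
        pow_le_pow_left₀ (norm_nonneg _) h1 2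
    _ ≤ _ := Finset.sum_mul_sq_le_sq_mul_sq _ _ _

/-- the Laplacian in degree `i + 1` as a matrix over the group ring -/
def Lap (X : FinRes G) (i : ℕ) : Matrix (Fin (X.n (i + 1))) (Fin (X.n (i + 1))) (MonoidAlgebra ℤ G) :=
  X.d i * stM (X.d i) + stM (X.d (i + 1)) * X.d (i + 1)

theorem lap_apply (X : FinRes G) (i : ℕ) (v : Fin (X.n (i + 1)) → H) :
    mo π (Lap X i) v = mo π (X.d i) (mo π (stM (X.d i)) v) +
      mo π (stM (X.d (i + 1))) (mo π (X.d (i + 1)) v) := by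
  unfold Lap
  rw [mo_add, mo_mul, mo_mul]

theorem d_d (X : FinRes G) (i : ℕ) (v : Fin (X.n i) → H) :
    mo π (X.d (i + 1)) (mo π (X.d i) v) = 0 := by
  have h := Pool.Agent.TH38.ZT.dd X (RingHom.id (MonoidAlgebra ℤ G)) i
  have h' : X.d (i + 1) * X.d i = 0 := by
    simpa using h
  rw [← mo_mul, h', mo_zero]

theorem stM_stM {a b : ℕ} (M : Matrix (Fin a) (Fin b) (MonoidAlgebra ℤ G)) : stM (stM M) = M := by
  funext i j
  unfold stM
  refine MonoidAlgebra.induction_linear (M i j) ?_ ?_ ?_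
  · rw [st_zero, st_zero]
  · intro x y hx hy
    rw [st_add, st_add, hx, hy]
  · intro g r
    rw [st_single, st_single, inv_inv]

theorem mo_adj' {a b : ℕ} (M : Matrix (Fin a) (Fin b) (MonoidAlgebra ℤ G)) (u : Fin b → H)
    (v : Fin a → H) :
    ∑ j, (inner ℂ (mo π M u j) (v j) : ℂ) = ∑ i, inner ℂ (u i) (mo π (stM M) v i) := by
  have h := mo_adj π (stM M) u v
  rwa [stM_stM] at h

theorem lap_inner (X : FinRes G) (i : ℕ) (v : Fin (X.n (i + 1)) → H) :
    (∑ j, (inner ℂ (v j) (mo π (Lap X i) v j) : ℂ)).re =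
      q (mo π (X.d (i + 1)) v) + q (mo π (stM (X.d i)) v) := by
  rw [lap_apply]
  simp only [Pi.add_apply, inner_add_right, Finset.sum_add_distrib]
  rw [← mo_adj π (X.d i) v, ← mo_adj' π (X.d (i + 1)) v, Complex.add_re, ← q_re, ← q_re, add_comm]

theorem lap_q (X : FinRes G) (i : ℕ) (v : Fin (X.n (i + 1)) → H) :
    q (mo π (Lap X i) v) = q (mo π (X.d i) (mo π (stM (X.d i)) v)) +
      q (mo π (stM (X.d (i + 1))) (mo π (X.d (i + 1)) v)) := by
  have h0 : ∑ j, (inner ℂ (mo π (X.d i) (mo π (stM (X.d i)) v) j)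
      (mo π (stM (X.d (i + 1))) (mo π (X.d (i + 1)) v) j) : ℂ) = 0 := by
    have h := mo_adj' π (stM (X.d (i + 1))) (mo π (X.d (i + 1)) v)
      (mo π (X.d i) (mo π (stM (X.d i)) v))
    rw [stM_stM, d_d] at h
    have h' := congrArg (starRingEnd ℂ) h
    simp only [map_sum, inner_conj_symm] at h'
    rw [h']
    simp
  rw [lap_apply]
  unfold q
  rw [← Finset.sum_add_distrib]
  have h1 : ∀ j, ‖(mo π (X.d i) (mo π (stM (X.d i)) v) +
      mo π (stM (X.d (i + 1))) (mo π (X.d (i + 1)) v)) j‖ ^ 2 =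
      ‖mo π (X.d i) (mo π (stM (X.d i)) v) j‖ ^ 2 +
      2 * (inner ℂ (mo π (X.d i) (mo π (stM (X.d i)) v) j)
      (mo π (stM (X.d (i + 1))) (mo π (X.d (i + 1)) v) j) : ℂ).re +
      ‖mo π (stM (X.d (i + 1))) (mo π (X.d (i + 1)) v) j‖ ^ 2 := by
    intro j
    rw [Pi.add_apply, @norm_add_sq ℂ]
    rfl
  simp_rw [h1]
  rw [Finset.sum_add_distrib, Finset.sum_add_distrib, ← Finset.mul_sum, ← Complex.re_sum, h0]
  simp [Finset.sum_add_distrib]

/-- the operator `K - Δ` is a strict contraction up to the factor `K` -/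
theorem contr (X : FinRes G) (i : ℕ) (ε : ℝ) (hε : 0 < ε)
    (hgap : ∀ v : Fin (X.n (i + 1)) → H,
      ε * q v ≤ q (mo π (X.d (i + 1)) v) + q (mo π (stM (X.d i)) v)) :
    ∃ (K : ℕ) (ρ : ℝ), 0 < K ∧ 0 ≤ ρ ∧ ρ < K ∧
      ∀ v : Fin (X.n (i + 1)) → H, q (mo π ((K : ℤ) • 1 - Lap X i) v) ≤ ρ ^ 2 * q v := by
  obtain ⟨C0, hC0, h0⟩ := q_mo π (X.d i)
  obtain ⟨C1, hC1, h1⟩ := q_mo π (stM (X.d (i + 1)))
  obtain ⟨K, hK⟩ := exists_nat_gt (max (max C0 C1) ε)
  have hKε : ε < K := lt_of_le_of_lt (le_max_right _ _) hK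
  have hKC0 : C0 ≤ K := ((le_max_left _ _).trans (le_max_left _ _)).trans hK.le
  have hKC1 : C1 ≤ K := ((le_max_right _ _).trans (le_max_left _ _)).trans hK.le
  have hK0 : (0 : ℝ) < K := hε.trans hKε
  refine ⟨K, Real.sqrt (K ^ 2 - K * ε), by exact_mod_cast hK0, Real.sqrt_nonneg _, ?_, fun v => ?_⟩
  · rw [Real.sqrt_lt' hK0]
    have : 0 < K * ε := mul_pos hK0 hε
    linarith
  · rw [Real.sq_sqrt (by nlinarith)]
    have e1 : q (mo π ((K : ℤ) • 1 - Lap X i) v) =
        (K : ℝ) ^ 2 * q v - 2 * K * (∑ j, (inner ℂ (v j) (mo π (Lap X i) v j) : ℂ)).re +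
          q (mo π (Lap X i) v) := by
      rw [mo_sub, mo_smul, mo_one]
      unfold q
      rw [Complex.re_sum, Finset.mul_sum, Finset.mul_sum, ← Finset.sum_sub_distrib,
        ← Finset.sum_add_distrib]
      refine Finset.sum_congr rfl fun j _ => ?_
      have e2 : ((K : ℤ) • v - mo π (Lap X i) v) j = ((K : ℝ) : ℂ) • v j - mo π (Lap X i) v j := by
        rw [Pi.sub_apply, Pi.smul_apply, ← Int.cast_smul_eq_zsmul ℂ]
        norm_cast
      rw [e2, @norm_sub_sq ℂ, norm_smul, inner_smul_left, mul_pow, Complex.norm_real,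
        Real.norm_eq_abs, sq_abs]
      have e3 : RCLike.re ((starRingEnd ℂ) ((K : ℝ) : ℂ) * inner ℂ (v j) (mo π (Lap X i) v j)) =
          K * (inner ℂ (v j) (mo π (Lap X i) v j) : ℂ).re := by
        rw [Complex.conj_ofReal]
        exact Complex.re_ofReal_mul _ _
      rw [e3]
      ring
    rw [e1, lap_inner, lap_q]
    have h2 := h0 (mo π (stM (X.d i)) v)
    have h3 := h1 (mo π (X.d (i + 1)) v)
    have h4 := hgap v
    have h5 := q_nonneg (mo π (stM (X.d i)) v)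
    have h6 := q_nonneg (mo π (X.d (i + 1)) v)
    have h7 : C0 * q (mo π (stM (X.d i)) v) ≤ K * q (mo π (stM (X.d i)) v) :=
      mul_le_mul_of_nonneg_right hKC0 h5
    have h8 : C1 * q (mo π (X.d (i + 1)) v) ≤ K * q (mo π (X.d (i + 1)) v) :=
      mul_le_mul_of_nonneg_right hKC1 h6
    have h9 : K * (ε * q v) ≤ K * (q (mo π (X.d (i + 1)) v) + q (mo π (stM (X.d i)) v)) :=
      mul_le_mul_of_nonneg_left h4 hK0.le
    nlinarith

end

end Pool.Agent.L7h55.SE.Pow
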