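import Pool.Agent.L7h55.SE.Def

/-!
# Transplantation of an almost harmonic cochain to a finite `G`-set
-/

set_option autoImplicit false

namespace Pool.Agent.L7h55.SE

open Pool.Agent.H919R4.ZS (FinRes)

noncomputable section

variable {G : Type} [Group G] {Ω : Type} [MulAction G Ω]

/-- the orbit map -/
def orb (ω : Ω) (h : G) : Ω := h • ω

theorem orb_smul (ω : Ω) (g x : G) : orb ω (g • x) = g • orb ω x := by
  unfold orb
  rw [smul_eq_mul, mul_smul]

/-- a maximal family of points with pairwise disjoint translates -/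
theorem packing [Fintype Ω] [DecidableEq Ω] (F : Finset G) (hF : F.Nonempty) (W : Finset Ω) :
    ∃ I : Finset Ω, I ⊆ W ∧
      (∀ ω ∈ I, ∀ ω' ∈ I, ∀ f ∈ F, ∀ f' ∈ F, f • ω = f' • ω' → ω = ω') ∧
      W.card ≤ F.card ^ 2 * I.card := by
  classical
  -- induction on the cardinality of `W`
  induction hn : W.card using Nat.strong_induction_on generalizing W with
  | _ n ih =>
    rcases W.eq_empty_or_nonempty with h0 | ⟨ω, hω⟩
    · subst h0
      refine ⟨∅, subset_rfl, by simp, ?_⟩
      simp at hn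
      omega
    · -- the bad points
      let B : Finset Ω := (F ×ˢ F).image fun p => p.1⁻¹ • (p.2 • ω)
      have hBc : B.card ≤ F.card ^ 2 := by
        refine Finset.card_image_le.trans ?_
        rw [Finset.card_product, sq]
      have hωB : ω ∈ B := by
        obtain ⟨f, hf⟩ := hF
        refine Finset.mem_image.2 ⟨(f, f), Finset.mk_mem_product hf hf, ?_⟩
        exact inv_smul_smul f ω
      have hlt : (W \ B).card < n := by
        rw [← hn]
        refine Finset.card_lt_card ⟨Finset.sdiff_subset, fun h => ?_⟩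
        exact (Finset.mem_sdiff.1 (h hω)).2 hωB
      obtain ⟨I, hIW, hI, hc⟩ := ih _ hlt (W \ B) rfl
      have hωI : ω ∉ I := fun h => (Finset.mem_sdiff.1 (hIW h)).2 hωB
      refine ⟨insert ω I, ?_, ?_, ?_⟩
      · intro x hx
        rcases Finset.mem_insert.1 hx with rfl | hx
        · exact hω
        · exact (Finset.mem_sdiff.1 (hIW hx)).1
      · have key : ∀ ω' ∈ I, ∀ f ∈ F, ∀ f' ∈ F, f • ω' ≠ f' • ω := by
          intro ω' hω' f hf f' hf' h
          refine (Finset.mem_sdiff.1 (hIW hω')).2 ?_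
          refine Finset.mem_image.2 ⟨(f, f'), Finset.mk_mem_product hf hf', ?_⟩
          change f⁻¹ • (f' • ω) = ω'
          rw [← h, inv_smul_smul]
        intro a ha b hb f hf f' hf' h
        rcases Finset.mem_insert.1 ha with ha1 | ha1
        · rcases Finset.mem_insert.1 hb with hb1 | hb1
          · rw [ha1, hb1]
          · rw [ha1] at h
            exact absurd h.symm (key b hb1 f' hf' f hf)
        · rcases Finset.mem_insert.1 hb with hb1 | hb1
          · rw [hb1] at h
            exact absurd h (key a ha1 f hf f' hf')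
          · exact hI a ha1 b hb1 f hf f' hf' h
      · rw [Finset.card_insert_of_notMem hωI]
        have h1 : W.card ≤ (W \ B).card + B.card := by
          have := Finset.card_sdiff_add_card W B
          have h2 : W.card ≤ (W ∪ B).card := Finset.card_le_card Finset.subset_union_left
          omega
        rw [← hn]
        calc W.card ≤ (W \ B).card + B.card := h1
          _ ≤ F.card ^ 2 * I.card + F.card ^ 2 := add_le_add hc hBc
          _ = F.card ^ 2 * (I.card + 1) := by ring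

/-- the norm of a combination of push forwards -/
theorem nsq_comb [Fintype Ω] {n : ℕ} (c : Fin n → G →₀ ℂ) (F : Finset G)
    (hc : ∀ j, (c j).support ⊆ F) (I : Finset Ω)
    (hinj : ∀ ω ∈ I, Set.InjOn (fun g : G => g • ω) F)
    (hdis : ∀ ω ∈ I, ∀ ω' ∈ I, ∀ f ∈ F, ∀ f' ∈ F, f • ω = f' • ω' → ω = ω')
    (a : Ω → ℂ) :
    nsq (∑ ω ∈ I, a ω • push (orb ω) c) = (∑ ω ∈ I, ‖a ω‖ ^ 2) * nsq c := by
  classical
  rw [nsq_eq (∑ ω ∈ I, a ω • push (orb ω) c) Finset.univ fun j => Finset.subset_univ _,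
    nsq_eq c F hc, Finset.mul_sum]
  refine Finset.sum_congr rfl fun j _ => ?_
  -- the value of the push forward
  have hval : ∀ ω ∈ I, ∀ f ∈ F, (c j).mapDomain (orb ω) (f • ω) = c j f := by
    intro ω hω f hf
    have h := Finsupp.mapDomain_apply' (F : Set G) (c j) (hc j) (hinj ω hω) hf
    exact h
  have hzero : ∀ ω ∈ I, ∀ x, (∀ f ∈ F, f • ω ≠ x) → (c j).mapDomain (orb ω) x = 0 := by
    intro ω hω x hx
    by_contra h
    have h1 : x ∈ ((c j).mapDomain (orb ω)).support := Finsupp.mem_support_iff.2 h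
    have h2 := Finsupp.mapDomain_support h1
    obtain ⟨f, hf, hfx⟩ := Finset.mem_image.1 h2
    exact hx f (hc j hf) hfx
  have happ : ∀ x, (∑ ω ∈ I, a ω • push (orb ω) c) j x =
      ∑ ω ∈ I, a ω * (c j).mapDomain (orb ω) x := by
    intro x
    rw [Finset.sum_apply, Finsupp.finsetSum_apply]
    rfl
  have hsq : ∀ x, ‖(∑ ω ∈ I, a ω • push (orb ω) c) j x‖ ^ 2 =
      ∑ ω ∈ I, ‖a ω‖ ^ 2 * ‖(c j).mapDomain (orb ω) x‖ ^ 2 := by
    intro x
    rw [happ]
    by_cases hx : ∃ ω ∈ I, ∃ f ∈ F, f • ω = x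
    · obtain ⟨ω, hω, f, hf, rfl⟩ := hx
      have hz : ∀ ω' ∈ I, ω' ≠ ω → (c j).mapDomain (orb ω') (f • ω) = 0 := by
        intro ω' hω' hne
        refine hzero ω' hω' _ fun f' hf' h => hne (hdis ω' hω' ω hω f' hf' f hf h)
      rw [Finset.sum_eq_single_of_mem ω hω fun ω' hω' hne => by rw [hz ω' hω' hne, mul_zero],
        Finset.sum_eq_single_of_mem ω hω fun ω' hω' hne => by rw [hz ω' hω' hne]; simp,
        norm_mul, mul_pow]
    · push Not at hx
      rw [Finset.sum_eq_zero fun ω hω => by rw [hzero ω hω x (hx ω hω), mul_zero],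
        Finset.sum_eq_zero fun ω hω => by rw [hzero ω hω x (hx ω hω)]; simp]
      simp
  simp_rw [hsq]
  rw [Finset.sum_comm, Finset.sum_mul]
  refine Finset.sum_congr rfl fun ω hω => ?_
  rw [← Finset.mul_sum]
  congr 1
  rw [← Finset.sum_subset (Finset.subset_univ (F.image fun f => f • ω))]
  · rw [Finset.sum_image (hinj ω hω)]
    exact Finset.sum_congr rfl fun f hf => by rw [hval ω hω f hf]
  · intro x _ hx
    rw [hzero ω hω x fun f hf h => hx (Finset.mem_image.2 ⟨f, hf, h⟩)]
    simp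

/-- **Transplantation.** -/
theorem transplant [Fintype Ω] (X : FinRes G) (i : ℕ) (ε : ℝ) (c : Coch X G (i + 1)) (hc0 : c ≠ 0)
    (hc : nsq (cob X (i + 1) c) + nsq (cobAdj X i c) ≤ ε * nsq c) (F : Finset G)
    (h1 : ∀ j, (c j).support ⊆ F) (h2 : ∀ j, (cob X (i + 1) c j).support ⊆ F)
    (h3 : ∀ j, (cobAdj X i c j).support ⊆ F) :
    ∃ V : Submodule ℂ (Coch X Ω (i + 1)),
      {ω : Ω | Set.InjOn (fun g : G => g • ω) F}.ncard ≤ F.card ^ 2 * Module.finrank ℂ V ∧
      ∀ v ∈ V, nsq (cob X (i + 1) v) + nsq (cobAdj X i v) ≤ ε * nsq v := by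
  classical
  have hF : F.Nonempty := by
    obtain ⟨j, hj⟩ : ∃ j, c j ≠ 0 := by
      by_contra h
      push Not at h
      exact hc0 (funext h)
    obtain ⟨x, hx⟩ := Finsupp.support_nonempty_iff.2 hj
    exact ⟨x, h1 j hx⟩
  let W : Finset Ω := Finset.univ.filter fun ω : Ω => Set.InjOn (fun g : G => g • ω) F
  obtain ⟨I, hIW, hdis, hcard⟩ := packing F hF W
  have hinj : ∀ ω ∈ I, Set.InjOn (fun g : G => g • ω) F := fun ω hω =>
    (Finset.mem_filter.1 (hIW hω)).2
  -- the map
  let Φ : (I → ℂ) →ₗ[ℂ] Coch X Ω (i + 1) :=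
    { toFun := fun a => ∑ ω : I, a ω • push (orb (ω : Ω)) c
      map_add' := fun a b => by
        rw [← Finset.sum_add_distrib]
        exact Finset.sum_congr rfl fun ω _ => add_smul (a ω) (b ω) (push (orb (ω : Ω)) c)
      map_smul' := fun z a => by
        rw [RingHom.id_apply, Finset.smul_sum]
        exact Finset.sum_congr rfl fun ω _ => mul_smul z (a ω) (push (orb (ω : Ω)) c) }
  -- extension by zero
  have hext : ∀ (n : ℕ) (c' : Fin n → G →₀ ℂ) (a : I → ℂ),
      ∑ ω : I, a ω • push (orb (ω : Ω)) c' =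
        ∑ ω ∈ I, (fun x => if h : x ∈ I then a ⟨x, h⟩ else 0) ω • push (orb ω) c' := by
    intro n c' a
    rw [← Finset.sum_coe_sort I]
    refine Finset.sum_congr rfl fun ω _ => ?_
    simp
  have hn : ∀ (n : ℕ) (c' : Fin n → G →₀ ℂ), (∀ j, (c' j).support ⊆ F) → ∀ a : I → ℂ,
      nsq (∑ ω : I, a ω • push (orb (ω : Ω)) c') =
        (∑ ω ∈ I, ‖(fun x => if h : x ∈ I then a ⟨x, h⟩ else 0) ω‖ ^ 2) * nsq c' := by
    intro n c' hc' a
    rw [hext, nsq_comb c' F hc' I hinj hdis]
  have hcob : ∀ a, cob X (i + 1) (Φ a) = ∑ ω : I, a ω • push (orb (ω : Ω)) (cob X (i + 1) c) := by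
    intro a
    have h := map_sum (cobL X Ω (i + 1)) (fun ω : I => a ω • push (orb (ω : Ω)) c) Finset.univ
    refine h.trans (Finset.sum_congr rfl fun ω _ => ?_)
    rw [map_smul]
    congr 1
    exact cob_push X (i + 1) (orb (ω : Ω)) (orb_smul _) c
  have hadj : ∀ a, cobAdj X i (Φ a) = ∑ ω : I, a ω • push (orb (ω : Ω)) (cobAdj X i c) := by
    intro a
    have h := map_sum (cobAdjL X Ω i) (fun ω : I => a ω • push (orb (ω : Ω)) c) Finset.univ
    refine h.trans (Finset.sum_congr rfl fun ω _ => ?_)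
    rw [map_smul]
    congr 1
    exact cobAdj_push X i (orb (ω : Ω)) (orb_smul _) c
  have hker : Function.Injective Φ := by
    rw [← LinearMap.ker_eq_bot, LinearMap.ker_eq_bot']
    intro a ha
    have h4 := hn _ c h1 a
    have h5 : nsq (∑ ω : I, a ω • push (orb (ω : Ω)) c) = 0 := by
      have : (∑ ω : I, a ω • push (orb (ω : Ω)) c) = 0 := ha
      rw [this]
      simp [nsq]
    rw [h5] at h4
    have h6 := (mul_eq_zero.1 h4.symm).resolve_right (nsq_pos c hc0).ne'
    rw [Finset.sum_eq_zero_iff_of_nonneg (fun _ _ => by positivity)] at h6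
    funext ω
    have h7 := h6 ω ω.2
    simpa using h7
  refine ⟨LinearMap.range Φ, ?_, ?_⟩
  · rw [LinearMap.finrank_range_of_inj hker, Module.finrank_fintype_fun_eq_card,
      Fintype.card_coe]
    have h8 : {ω : Ω | Set.InjOn (fun g : G => g • ω) F}.ncard = W.card := by
      rw [← Set.ncard_coe_finset]
      congr 1
      ext ω
      simp [W]
    rw [h8]
    exact hcard
  · rintro _ ⟨a, rfl⟩
    rw [hcob, hadj, hn _ _ h2, hn _ _ h3]
    change _ ≤ ε * nsq (∑ ω : I, a ω • push (orb (ω : Ω)) c)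
    rw [hn _ _ h1, ← mul_add]
    set S := ∑ ω ∈ I, ‖(fun x => if h : x ∈ I then a ⟨x, h⟩ else 0) ω‖ ^ 2 with hS
    have hS0 : 0 ≤ S := Finset.sum_nonneg fun _ _ => by positivity
    calc S * (nsq (cob X (i + 1) c) + nsq (cobAdj X i c)) ≤ S * (ε * nsq c) :=
          mul_le_mul_of_nonneg_left hc hS0
      _ = ε * (S * nsq c) := by ring

end

end Pool.Agent.L7h55.SE
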