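import Pool.Agent.L7h55.SE.Van
import Pool.Agent.L7h55.SE.Trans
import Pool.Agent.Q169.PT.Fin2
import Pool.Agent.Q169.PT.Br
import Pool.Agent.Q38.PT.Cohi

/-!
# Zero is in the spectrum of the Laplacian in degree one
-/

set_option autoImplicit false
set_option linter.unusedSectionVars false

namespace Pool.Agent.L7h55.SE

open Filter Topology
open Pool.Agent.H919R4.ZS (FinRes L2 lregL)
open Pool.Agent.Q169.PT
open Pool.Agent.Q169.PT.Br (E E_single E_apply norm_E dense hom_single)
open Pool.Agent.L7h55.SE.Pow

noncomputable section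

variable {G : Type} [Group G] [DecidableEq G]

theorem hom_E' (g : G) (f : G →₀ ℂ) :
    (reg G).hom g (E f) = E (f.mapDomain fun x => g • x) := by
  induction f using Finsupp.induction_linear with
  | zero => rw [Finsupp.mapDomain_zero, map_zero, map_zero]
  | add f f' hf hf' => rw [Finsupp.mapDomain_add, map_add, map_add, map_add, hf, hf']
  | single h a => rw [Finsupp.mapDomain_single, hom_single]; rfl

theorem alg_E (a : MonoidAlgebra ℤ G) (f : G →₀ ℂ) : (reg G).alg a (E f) = E (ring a f) := by
  refine MonoidAlgebra.induction_linear a ?_ ?_ ?_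
  · unfold ring
    simp
  · intro x y hx hy
    have h : ring (x + y) f = ring x f + ring y f := by
      unfold ring
      rw [MonoidAlgebra.coeff_add, Finsupp.sum_add_index']
      · intro g
        simp
      · intro g r s
        rw [Int.cast_add, add_smul]
    rw [h, map_add, map_add, ← hx, ← hy]
    rfl
  · intro g r
    have h : ring (MonoidAlgebra.single g r) f = (r : ℂ) • f.mapDomain fun x => g • x := by
      unfold ring
      rw [MonoidAlgebra.coeff_single, Finsupp.sum_single_index]
      simp
    rw [h, alg_single', hom_E', map_smul]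

theorem ring_st (a : MonoidAlgebra ℤ G) (f : G →₀ ℂ) : ring (st a) f = ringAdj a f := by
  refine MonoidAlgebra.induction_linear a ?_ ?_ ?_
  · rw [st_zero]
    unfold ring ringAdj
    simp
  · intro x y hx hy
    have h : ringAdj (x + y) f = ringAdj x f + ringAdj y f := by
      unfold ringAdj
      rw [MonoidAlgebra.coeff_add, Finsupp.sum_add_index']
      · intro g
        simp
      · intro g r s
        rw [Int.cast_add, add_smul]
    have h' : ring (st x + st y) f = ring (st x) f + ring (st y) f := by
      unfold ring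
      rw [MonoidAlgebra.coeff_add, Finsupp.sum_add_index']
      · intro g
        simp
      · intro g r s
        rw [Int.cast_add, add_smul]
    rw [st_add, h', h, hx, hy]
  · intro g r
    rw [st_single]
    unfold ring ringAdj
    rw [MonoidAlgebra.coeff_single, MonoidAlgebra.coeff_single, Finsupp.sum_single_index,
      Finsupp.sum_single_index]
    · simp
    · simp

/-- cochains with finite support as tuples of square summable functions -/
def Et {n : ℕ} (c : Fin n → G →₀ ℂ) : Fin n → L2 G := fun j => E (c j)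

theorem q_Et {n : ℕ} (c : Fin n → G →₀ ℂ) : q (Et c) = nsq c := by
  unfold q nsq Et
  exact Finset.sum_congr rfl fun j _ => norm_E _

theorem mo_Et (X : FinRes G) (i : ℕ) (c : Coch X G i) :
    mo (reg G) (X.d i) (Et c) = Et (cob X i c) := by
  funext k
  rw [mo_apply]
  unfold Et cob
  rw [map_sum]
  exact Finset.sum_congr rfl fun j _ => alg_E _ _

theorem moAdj_Et (X : FinRes G) (i : ℕ) (c : Coch X G (i + 1)) :
    mo (reg G) (stM (X.d i)) (Et c) = Et (cobAdj X i c) := by
  funext k
  rw [mo_apply]
  unfold Et cobAdj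
  rw [map_sum]
  refine Finset.sum_congr rfl fun j _ => ?_
  unfold Pow.stM
  rw [alg_E, ring_st]

theorem cont_q {H : Type} [NormedAddCommGroup H] [InnerProductSpace ℂ H] {n : ℕ} :
    Continuous fun v : Fin n → H => q v := by
  unfold q
  fun_prop

/-- approximation by finitely supported cochains -/
theorem approx (X : FinRes G) (i : ℕ) (ε : ℝ) (v : Fin (X.n (i + 1)) → L2 G)
    (hv : q (mo (reg G) (X.d (i + 1)) v) + q (mo (reg G) (stM (X.d i)) v) < ε * q v) :
    ∃ c : Coch X G (i + 1), c ≠ 0 ∧ nsq (cob X (i + 1) c) + nsq (cobAdj X i c) ≤ ε * nsq c := by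
  -- the approximations
  let c : Finset G → Coch X G (i + 1) := fun s j => ∑ g ∈ s, Finsupp.single g (v j g)
  have h1 : Tendsto (fun s => Et (c s)) atTop (𝓝 v) := by
    rw [tendsto_pi_nhds]
    intro j
    exact dense (v j)
  have hcont : Continuous fun u : Fin (X.n (i + 1)) → L2 G =>
      ε * q u - (q (mo (reg G) (X.d (i + 1)) u) + q (mo (reg G) (stM (X.d i)) u)) :=
    (continuous_const.mul cont_q).sub ((cont_q.comp (mo (reg G) (X.d (i + 1))).continuous).add
      (cont_q.comp (mo (reg G) (stM (X.d i))).continuous))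
  have h2 := (hcont.tendsto v).comp h1
  have h3 : (0 : ℝ) < ε * q v -
      (q (mo (reg G) (X.d (i + 1)) v) + q (mo (reg G) (stM (X.d i)) v)) := by linarith
  obtain ⟨s, hs⟩ := (h2.eventually (lt_mem_nhds h3)).exists
  simp only [Function.comp_apply] at hs
  rw [mo_Et, moAdj_Et, q_Et, q_Et, q_Et] at hs
  refine ⟨c s, ?_, by linarith⟩
  intro h0
  rw [h0] at hs
  have h4 : nsq (0 : Coch X G (i + 1)) = 0 := by simp [nsq]
  rw [h4, mul_zero] at hs
  have h5 := nsq_nonneg (cob X (i + 1) (0 : Coch X G (i + 1)))
  have h6 := nsq_nonneg (cobAdj X i (0 : Coch X G (i + 1)))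
  linarith

omit [DecidableEq G] in
/-- **Zero in the spectrum**, degree one -/
theorem zero_spec (X : FinRes G) (hX : ∀ i, i ≠ 3 → Subsingleton (X.cohomology i))
    (hX3 : Nonempty (X.cohomology 3 ≃+ ℤ)) (ε : ℝ) (hε : 0 < ε) :
    ∃ c : Coch X G 1, c ≠ 0 ∧ nsq (cob X 1 c) + nsq (cobAdj X 0 c) ≤ ε * nsq c := by
  classical
  by_contra hcon
  obtain ⟨⟨H, i1, i2, i3, π, hπ, hv⟩, -⟩ :=
    Pool.Agent.Q169.PT.all2 Pool.Agent.Q38.PT.Co.cohi X hX hX3
  refine hv (gap_van hπ X ε hε fun v => ?_)
  by_contra h
  push Not at h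
  exact hcon (approx X 0 ε v h)

omit [DecidableEq G] in
/-- **Small eigenvalues on all finite sets with an action** -/
theorem small (X : FinRes G) (hX : ∀ i, i ≠ 3 → Subsingleton (X.cohomology i))
    (hX3 : Nonempty (X.cohomology 3 ≃+ ℤ)) (ε : ℝ) (hε : 0 < ε) :
    ∃ F : Finset G, ∀ (Ω : Type) [MulAction G Ω] [Finite Ω],
      ∃ V : Submodule ℂ (Coch X Ω 1),
        {ω : Ω | Set.InjOn (fun g : G => g • ω) F}.ncard ≤ F.card ^ 2 * Module.finrank ℂ V ∧
        ∀ v ∈ V, nsq (cob X 1 v) + nsq (cobAdj X 0 v) ≤ ε * nsq v := by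
  classical
  obtain ⟨c, hc0, hc⟩ := zero_spec X hX hX3 ε hε
  refine ⟨(Finset.univ.biUnion fun j => (c j).support) ∪
    ((Finset.univ.biUnion fun j => (cob X 1 c j).support) ∪
      (Finset.univ.biUnion fun j => (cobAdj X 0 c j).support)), fun Ω _ _ => ?_⟩
  have := Fintype.ofFinite Ω
  refine transplant X 0 ε c hc0 hc _ (fun j => ?_) (fun j => ?_) (fun j => ?_)
  · refine Finset.Subset.trans ?_ Finset.subset_union_left
    exact Finset.subset_biUnion_of_mem (fun j => (c j).support) (Finset.mem_univ j)
  · refine Finset.Subset.trans ?_ (Finset.subset_union_left.trans Finset.subset_union_right)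
    exact Finset.subset_biUnion_of_mem (fun j => (cob X 1 c j).support) (Finset.mem_univ j)
  · refine Finset.Subset.trans ?_ (Finset.subset_union_right.trans Finset.subset_union_right)
    exact Finset.subset_biUnion_of_mem (fun j => (cobAdj X 0 c j).support) (Finset.mem_univ j)

end

end Pool.Agent.L7h55.SE
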