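import Pool.Agent.L7h55.SE.Spec

/-!
# Zero is in the spectrum of the Laplacian in degree two
-/

set_option autoImplicit false
set_option linter.unusedSectionVars false

namespace Pool.Agent.L7h55.SE

open Filter Topology
open Pool.Agent.H919R4.ZS (FinRes L2 lregL)
open Pool.Agent.Q169.PT
open Pool.Agent.L7h55.SE.Pow
open Pool.Agent.Q154.PT.Twist (U tw U_reg_U norm_U s s_sq U_apply T_coeff)

noncomputable section

variable {G : Type} [Group G] (w : G →* ℤˣ)

theorem U_U (f : L2 G) : U w (U w f) = f := by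
  ext h
  rw [U_apply, U_apply, ← mul_assoc, s_sq, one_mul]

theorem tw_U (g : G) (f : L2 G) : (tw w).hom g (U w f) = U w ((reg G).hom g f) := by
  have h := U_reg_U w g (U w f)
  rw [U_U] at h
  exact h.symm

theorem tw_alg_U (a : MonoidAlgebra ℤ G) (f : L2 G) :
    (tw w).alg a (U w f) = U w ((reg G).alg a f) := by
  refine MonoidAlgebra.induction_linear a ?_ ?_ ?_
  · rw [map_zero, map_zero]
    simp
  · intro x y hx hy
    rw [map_add, map_add]
    change (tw w).alg x (U w f) + (tw w).alg y (U w f) = U w ((reg G).alg x f + (reg G).alg y f)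
    rw [hx, hy, map_add]
  · intro g r
    rw [alg_single', alg_single', tw_U, map_smul]

theorem st_st (a : MonoidAlgebra ℤ G) : st (st a) = a := by
  refine MonoidAlgebra.induction_linear a ?_ ?_ ?_
  · rw [st_zero, st_zero]
  · intro x y hx hy
    rw [st_add, st_add, hx, hy]
  · intro g r
    rw [st_single, st_single, inv_inv]

theorem tw_alg_T {a b : MonoidAlgebra ℤ G} (h : ∀ g, b.coeff g = (w g : ℤ) * a.coeff g⁻¹)
    (x : L2 G) : (tw w).alg b x = (reg G).alg (st a) x := by
  have hb : b = Pool.Agent.Q154.PT.Twist.T w a := by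
    ext g
    rw [h, T_coeff]
  refine ext_inner_right ℂ fun y => ?_
  rw [hb, Pool.Agent.Q154.PT.Twist.adj w a x y, alg_adj]

theorem tw_alg_st {a b : MonoidAlgebra ℤ G} (h : ∀ g, b.coeff g = (w g : ℤ) * a.coeff g⁻¹)
    (x : L2 G) : (tw w).alg (st b) x = (reg G).alg a x := by
  refine ext_inner_right ℂ fun y => ?_
  rw [alg_adj, tw_alg_T w h, ← alg_adj, st_st]

theorem zero_spec_two (X : FinRes G) (hlen : X.len ≤ 3)
    (hX : ∀ i, i ≠ 3 → Subsingleton (X.cohomology i))
    (hX3 : Nonempty (X.cohomology 3 ≃+ ℤ)) (ε : ℝ) (hε : 0 < ε) :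
    ∃ c : Coch X G 2, c ≠ 0 ∧ nsq (cob X 2 c) + nsq (cobAdj X 1 c) ≤ ε * nsq c := by
  classical
  by_contra hcon
  have hgap : ∀ v : Fin (X.n 2) → L2 G,
      ε * q v ≤ q (mo (reg G) (X.d 2) v) + q (mo (reg G) (stM (X.d 1)) v) := by
    intro v
    by_contra h
    push Not at h
    exact hcon (approx X 1 ε v h)
  obtain ⟨⟨H, i1, i2, i3, π, hπ, hv⟩, -⟩ :=
    Pool.Agent.Q169.PT.all2 Pool.Agent.Q38.PT.Co.cohi X hX hX3
  obtain ⟨w, e, hO⟩ := Pool.Agent.Q154.PT.Ori.ori G X hlen hX3
  obtain ⟨X', e0, e1, e2, h0, h1⟩ := Du.dual G X hlen (fun i hi => hX i (by omega)) w e hO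
  refine hv (gap_van hπ X' ε hε fun v' => ?_)
  have h := hgap fun k => U w (v' (e1.symm k))
  have hq : q (fun k => U w (v' (e1.symm k))) = q v' := by
    unfold q
    rw [← e1.sum_comp]
    refine Finset.sum_congr rfl fun k _ => ?_
    beta_reduce
    rw [Equiv.symm_apply_apply, norm_U]
  have hA : q (mo (reg G) (X.d 2) fun k => U w (v' (e1.symm k))) =
      q (mo (reg G) (stM (X'.d 0)) v') := by
    unfold q
    rw [← e0.sum_comp]
    refine Finset.sum_congr rfl fun i _ => ?_
    have h2 : mo (reg G) (X.d 2) (fun k => U w (v' (e1.symm k))) (e0 i) =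
        U w (mo (reg G) (stM (X'.d 0)) v' i) := by
      rw [mo_apply, mo_apply, map_sum, ← e1.sum_comp]
      refine Finset.sum_congr rfl fun j _ => ?_
      rw [Equiv.symm_apply_apply, ← tw_alg_st w (h0 j i), tw_alg_U]
      rfl
    rw [h2, norm_U]
  have hB : q (mo (reg G) (stM (X.d 1)) fun k => U w (v' (e1.symm k))) =
      q (mo (reg G) (X'.d 1) v') := by
    unfold q
    rw [← e2.sum_comp]
    refine Finset.sum_congr rfl fun j _ => ?_
    have h2 : mo (reg G) (stM (X.d 1)) (fun k => U w (v' (e1.symm k))) (e2 j) =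
        U w (mo (reg G) (X'.d 1) v' j) := by
      rw [mo_apply, mo_apply, map_sum, ← e1.sum_comp]
      refine Finset.sum_congr rfl fun k _ => ?_
      rw [Equiv.symm_apply_apply]
      change (reg G).alg (st (X.d 1 (e1 k) (e2 j))) _ = _
      rw [← tw_alg_T w (h1 j k), tw_alg_U]
    rw [h2, norm_U]
  rw [hq, hA, hB] at h
  linarith

end

end Pool.Agent.L7h55.SE
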