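import Pool.Agent.L7h55.SE.FinD

/-!
# Small eigenvalues for all finite-dimensional unitary representations
-/

set_option autoImplicit false
set_option linter.unusedSectionVars false

namespace Pool.Agent.L7h55.SE.FinD

open Filter Topology
open Pool.Agent.H919R4.ZS (FinRes L2 lregL)
open Pool.Agent.Q169.PT
open Pool.Agent.L7h55.SE Pool.Agent.L7h55.SE.Pow Pool.Agent.L7h55.SE.Inf

noncomputable section

variable {G : Type} [Group G]

/-- **All finite-dimensional unitary representations.** -/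
theorem unitary (X : FinRes G) (i : ℕ)
    (hz : ∀ ε : ℝ, 0 < ε → ∃ c : Coch X G (i + 1), c ≠ 0 ∧
      nsq (cob X (i + 1) c) + nsq (cobAdj X i c) ≤ ε * nsq c) (ε : ℝ) (hε : 0 < ε) :
    ∃ (c C : ℝ) (F : Finset G), 0 < c ∧ 1 ∉ F ∧
      ∀ (H : Type) [NormedAddCommGroup H] [InnerProductSpace ℂ H] [FiniteDimensional ℂ H]
        (π : Rep G H), ∃ V : Submodule ℂ (Fin (X.n (i + 1)) → H),
          c * Module.finrank ℂ H ≤ Module.finrank ℂ V + Module.finrank ℂ (harm π X i) +
            C * ∑ g ∈ F, ‖LinearMap.trace ℂ H (π.hom g).toLinearMap‖ ∧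
          ∀ v ∈ V, en π X i v ≤ ε * q v ∧
            (∀ h ∈ harm π X i, ∑ j, (inner ℂ (h j) (v j) : ℂ) = 0) ∧
            (Gp π X i ε → mo π (stM (X.d i)) v = 0) := by
  classical
  obtain ⟨K, hK⟩ := exists_nat_gt (max (n2 (Lap X i)) (max ε 1))
  have hKε : ε < K := lt_of_le_of_lt ((le_max_left _ _).trans (le_max_right _ _)) hK
  have hK1 : (1 : ℝ) < K := lt_of_le_of_lt ((le_max_right _ _).trans (le_max_right _ _)) hK
  have hK2 : n2 (Lap X i) ≤ (K : ℝ) ^ 2 := by
    have h1 : n2 (Lap X i) < K := lt_of_le_of_lt (le_max_left _ _) hK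
    nlinarith
  obtain ⟨m, hm⟩ := exists_large X i ε hε (hz (ε / 2) (half_pos hε)) K hKε.le
  set M := ((K : ℤ) • 1 - Lap X i) ^ m * ((K : ℤ) • 1 - Lap X i) ^ m with hM
  set τ : ℝ := (((∑ j, (M j j).coeff 1 : ℤ) : ℤ) : ℝ) with hτ
  set D : ℝ := ((K : ℝ) ^ 2) ^ m with hD
  have hD0 : 0 < D := by positivity
  let S : Finset G := insert 1 (Finset.univ.biUnion fun j => (M j j).coeff.support)
  let F : Finset G := S.erase 1
  let t : G → ℂ := fun g => ∑ j, (((M j j).coeff g : ℤ) : ℂ)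
  let C0 : ℝ := ∑ g ∈ F, ‖t g‖
  refine ⟨(τ - X.n (i + 1) * ((K - ε) ^ 2) ^ m) / D, C0 / D, F, div_pos (by linarith) hD0,
    Finset.notMem_erase 1 S, ?_⟩
  intro H _ _ _ π
  obtain ⟨V, hV1, hV2⟩ := spectral π X i K hK2 ε m
  refine ⟨V, ?_, hV2⟩
  -- the trace
  have htr : LinearMap.trace ℂ (E2 H (X.n (i + 1))) (op π M) =
      ∑ g ∈ S, t g * LinearMap.trace ℂ H (π.hom g).toLinearMap := by
    rw [trace_op]
    have h1 : ∀ j, LinearMap.trace ℂ H (π.alg (M j j)).toLinearMap =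
        ∑ g ∈ S, (((M j j).coeff g : ℤ) : ℂ) * LinearMap.trace ℂ H (π.hom g).toLinearMap := by
      intro j
      rw [trace_alg]
      refine Finsupp.sum_of_support_subset _ ?_ _ (fun g _ => by simp)
      refine Finset.Subset.trans ?_ (Finset.subset_insert _ _)
      exact Finset.subset_biUnion_of_mem (fun j => (M j j).coeff.support) (Finset.mem_univ j)
    rw [Finset.sum_congr rfl fun j _ => h1 j, Finset.sum_comm]
    refine Finset.sum_congr rfl fun g _ => ?_
    rw [← Finset.sum_mul]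
  have htr1 : LinearMap.trace ℂ H (π.hom 1).toLinearMap = Module.finrank ℂ H := by
    rw [map_one]
    exact LinearMap.trace_one ℂ H
  have ht1 : t 1 = ((τ : ℝ) : ℂ) := by
    simp only [t, hτ]
    push_cast
    rfl
  rw [← Finset.add_sum_erase S _ (Finset.mem_insert_self _ _), htr1, ht1] at htr
  have hre : (LinearMap.trace ℂ (E2 H (X.n (i + 1))) (op π M)).re = τ * Module.finrank ℂ H +
      (∑ g ∈ F, t g * LinearMap.trace ℂ H (π.hom g).toLinearMap).re := by
    rw [htr, Complex.add_re, Complex.re_ofReal_mul, Complex.natCast_re]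
  have herr : -(C0 * ∑ g ∈ F, ‖LinearMap.trace ℂ H (π.hom g).toLinearMap‖) ≤
      (∑ g ∈ F, t g * LinearMap.trace ℂ H (π.hom g).toLinearMap).re := by
    have h2 : ‖∑ g ∈ F, t g * LinearMap.trace ℂ H (π.hom g).toLinearMap‖ ≤
        C0 * ∑ g ∈ F, ‖LinearMap.trace ℂ H (π.hom g).toLinearMap‖ := by
      refine (norm_sum_le _ _).trans ?_
      rw [Finset.mul_sum]
      refine Finset.sum_le_sum fun g hg => ?_
      rw [norm_mul]
      exact mul_le_mul_of_nonneg_right
        (Finset.single_le_sum (f := fun g => ‖t g‖) (fun _ _ => norm_nonneg _) hg)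
        (norm_nonneg _)
    have h3 := (Complex.abs_re_le_norm (∑ g ∈ F, t g * LinearMap.trace ℂ H (π.hom g).toLinearMap)).trans h2
    exact (abs_le.1 h3).1
  have hdim : (Module.finrank ℂ (E2 H (X.n (i + 1))) : ℝ) = X.n (i + 1) * Module.finrank ℂ H := by
    have h4 : Module.finrank ℂ (E2 H (X.n (i + 1))) = X.n (i + 1) * Module.finrank ℂ H := by
      rw [LinearEquiv.finrank_eq (ce H (X.n (i + 1))), Module.finrank_pi_fintype]
      simp
    rw [h4]
    push_cast
    rfl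
  rw [hre, hdim] at hV1
  have h5 : (τ - X.n (i + 1) * ((K - ε) ^ 2) ^ m) * Module.finrank ℂ H ≤
      (Module.finrank ℂ V + Module.finrank ℂ (harm π X i)) * D +
        C0 * ∑ g ∈ F, ‖LinearMap.trace ℂ H (π.hom g).toLinearMap‖ := by
    nlinarith
  have h6 : (τ - X.n (i + 1) * ((K - ε) ^ 2) ^ m) / D * Module.finrank ℂ H =
      ((τ - X.n (i + 1) * ((K - ε) ^ 2) ^ m) * Module.finrank ℂ H) / D := by ring
  have h7 : C0 / D * ∑ g ∈ F, ‖LinearMap.trace ℂ H (π.hom g).toLinearMap‖ =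
      (C0 * ∑ g ∈ F, ‖LinearMap.trace ℂ H (π.hom g).toLinearMap‖) / D := by ring
  rw [h6, h7, div_le_iff₀ hD0, add_mul, div_mul_cancel₀ _ hD0.ne']
  exact h5

end

end Pool.Agent.L7h55.SE.FinD
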