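import Pool.Agent.L7h55.SE.Pow

/-!
# A spectral gap of the regular representation in degree one kills the tempered cocycles, 2
-/

set_option autoImplicit false
set_option linter.unusedSectionVars false

namespace Pool.Agent.L7h55.SE.Pow

open scoped Matrix
open Pool.Agent.H919R4.ZS (FinRes L2 augm eps eps_add eps_neg eps_sub eps_smul eps_zsmul
  eps_single eps_d exists_lift augm_single)
open Pool.Agent.Q169.PT

noncomputable section

variable {G H : Type} [Group G] [NormedAddCommGroup H] [InnerProductSpace ℂ H]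

/-! ### tempered representations -/

theorem alg_eq (π : Rep G H) (a : MonoidAlgebra ℤ G) (v : H) :
    π.alg a v = π.sum (a.coeff.mapRange (fun r : ℤ => (r : ℂ)) (by simp)) v := by
  unfold Rep.sum
  rw [Finsupp.sum_mapRange_index (by intro g; simp)]
  refine MonoidAlgebra.induction_linear a ?_ ?_ ?_
  · simp
  · intro x y hx hy
    rw [map_add, MonoidAlgebra.coeff_add, Finsupp.sum_add_index']
    · change π.alg x v + π.alg y v = _
      rw [hx, hy]
    · intro g
      simp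
    · intro g r s
      rw [Int.cast_add, add_smul]
  · intro g r
    rw [alg_single', MonoidAlgebra.coeff_single, Finsupp.sum_single_index]
    simp

theorem tempered_alg {π : Rep G H} (hπ : Tempered π) (a : MonoidAlgebra ℤ G) (K : ℝ)
    (h : ∀ f : L2 G, ‖(reg G).alg a f‖ ≤ K * ‖f‖) (v : H) : ‖π.alg a v‖ ≤ K * ‖v‖ := by
  rw [alg_eq]
  refine hπ _ K (fun f => ?_) v
  rw [← alg_eq]
  exact h f

theorem q_pow (π : Rep G H) {n : ℕ} (T : Matrix (Fin n) (Fin n) (MonoidAlgebra ℤ G)) (ρ : ℝ)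
    (hT : ∀ v : Fin n → H, q (mo π T v) ≤ ρ ^ 2 * q v) (m : ℕ) (v : Fin n → H) :
    q (mo π (T ^ m) v) ≤ (ρ ^ m) ^ 2 * q v := by
  induction m with
  | zero => rw [pow_zero, mo_one, pow_zero, one_pow, one_mul]
  | succ m ih =>
    rw [pow_succ', mo_mul]
    refine (hT _).trans ?_
    calc ρ ^ 2 * q (mo π (T ^ m) v) ≤ ρ ^ 2 * ((ρ ^ m) ^ 2 * q v) :=
          mul_le_mul_of_nonneg_left ih (sq_nonneg _)
      _ = (ρ ^ (m + 1)) ^ 2 * q v := by ring

theorem mo_single (π : Rep G H) {a b : ℕ} (M : Matrix (Fin a) (Fin b) (MonoidAlgebra ℤ G))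
    (j : Fin b) (f : H) (i : Fin a) : mo π M (Pi.single j f) i = π.alg (M i j) f := by
  rw [mo_apply, Finset.sum_eq_single j]
  · rw [Pi.single_eq_same]
  · intro k _ hk
    rw [Pi.single_eq_of_ne hk, map_zero]
  · intro h
    exact absurd (Finset.mem_univ _) h

theorem q_single {n : ℕ} (j : Fin n) (f : H) : q (Pi.single j f : Fin n → H) = ‖f‖ ^ 2 := by
  unfold q
  rw [Finset.sum_eq_single j]
  · rw [Pi.single_eq_same]
  · intro k _ hk
    rw [Pi.single_eq_of_ne hk]
    simp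
  · intro h
    exact absurd (Finset.mem_univ _) h

theorem entry (π : Rep G H) {n : ℕ} (T : Matrix (Fin n) (Fin n) (MonoidAlgebra ℤ G)) (ρ : ℝ)
    (hρ : 0 ≤ ρ) (hT : ∀ v : Fin n → H, q (mo π T v) ≤ ρ ^ 2 * q v) (m : ℕ) (i j : Fin n) (f : H) :
    ‖π.alg ((T ^ m) i j) f‖ ≤ ρ ^ m * ‖f‖ := by
  have h := q_pow π T ρ hT m (Pi.single j f)
  rw [q_single, ← mul_pow] at h
  have h1 : ‖π.alg ((T ^ m) i j) f‖ ^ 2 ≤ q (mo π (T ^ m) (Pi.single j f)) := by
    unfold q
    rw [← mo_single π (T ^ m) j f i]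
    exact Finset.single_le_sum (f := fun i => ‖mo π (T ^ m) (Pi.single j f) i‖ ^ 2)
      (fun _ _ => by positivity) (Finset.mem_univ i)
  exact (abs_le_of_sq_le_sq' (h1.trans h) (by positivity)).2

/-- the power trick -/
theorem surj_lap [CompleteSpace H] {π : Rep G H} (hπ : Tempered π) (X : FinRes G) (i : ℕ) (ε : ℝ)
    (hε : 0 < ε)
    (hgap : ∀ v : Fin (X.n (i + 1)) → L2 G,
      ε * q v ≤ q (mo (reg G) (X.d (i + 1)) v) + q (mo (reg G) (stM (X.d i)) v)) :
    ∀ v : Fin (X.n (i + 1)) → H, ∃ u, mo π (Lap X i) u = v := by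
  obtain ⟨K, ρ, hK, hρ, hρK, hT⟩ := contr (reg G) X i ε hε hgap
  set n := X.n (i + 1) with hn
  intro v
  set T : Matrix (Fin n) (Fin n) (MonoidAlgebra ℤ G) := (K : ℤ) • 1 - Lap X i with hTdef
  have hK' : (0 : ℝ) < K := by exact_mod_cast hK
  have he : ∀ m (a b : Fin n) (f : H), ‖π.alg ((T ^ m) a b) f‖ ≤ ρ ^ m * ‖f‖ :=
    fun m a b => tempered_alg hπ _ _ (entry (reg G) T ρ hρ hT m a b)
  -- the exponent
  obtain ⟨m, hm⟩ : ∃ m : ℕ, (n : ℝ) * (ρ / K) ^ m < 1 := by
    have h1 : Filter.Tendsto (fun m : ℕ => (n : ℝ) * (ρ / K) ^ m) Filter.atTop (nhds ((n : ℝ) * 0)) :=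
      (tendsto_pow_atTop_nhds_zero_of_lt_one (by positivity)
        ((div_lt_one hK').2 hρK)).const_mul _
    rw [mul_zero] at h1
    exact (h1.eventually (gt_mem_nhds one_pos)).exists
  have hS : ‖mo π (T ^ m)‖ ≤ n * ρ ^ m := by
    refine ContinuousLinearMap.opNorm_le_bound _ (by positivity) fun w => ?_
    rw [pi_norm_le_iff_of_nonneg (by positivity)]
    intro a
    rw [mo_apply]
    refine (norm_sum_le _ _).trans ?_
    have h2 : ∀ j ∈ (Finset.univ : Finset (Fin n)), ‖π.alg ((T ^ m) a j) (w j)‖ ≤ ρ ^ m * ‖w‖ :=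
      fun j _ => (he m a j (w j)).trans
        (mul_le_mul_of_nonneg_left (norm_le_pi_norm w j) (by positivity))
    refine (Finset.sum_le_sum h2).trans (le_of_eq ?_)
    rw [Finset.sum_const, Finset.card_univ, Fintype.card_fin, nsmul_eq_mul]
    ring
  set c : ℂ := (K : ℂ) ^ m with hc
  have hc0 : c ≠ 0 := pow_ne_zero _ (by exact_mod_cast hK.ne')
  have hcn : ‖c‖ = (K : ℝ) ^ m := by
    rw [hc, norm_pow, Complex.norm_natCast]
  have hR : ‖c⁻¹ • mo π (T ^ m)‖ < 1 := by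
    refine (ContinuousLinearMap.opNorm_smul_le _ _).trans_lt ?_
    rw [norm_inv, hcn]
    calc ((K : ℝ) ^ m)⁻¹ * ‖mo π (T ^ m)‖ ≤ ((K : ℝ) ^ m)⁻¹ * (n * ρ ^ m) :=
          mul_le_mul_of_nonneg_left hS (by positivity)
      _ = n * (ρ / K) ^ m := by rw [div_pow]; ring
      _ < 1 := hm
  let U := Units.oneSub (c⁻¹ • mo π (T ^ m)) hR
  obtain ⟨w, hw⟩ : ∃ w : Fin n → H, w - c⁻¹ • mo π (T ^ m) w = v := by
    refine ⟨(↑U⁻¹ : (Fin n → H) →L[ℂ] (Fin n → H)) v, ?_⟩
    have h3 : (U : (Fin n → H) →L[ℂ] (Fin n → H)) *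
        (↑U⁻¹ : (Fin n → H) →L[ℂ] (Fin n → H)) = 1 := U.mul_inv
    have h4 := congrArg (fun A : (Fin n → H) →L[ℂ] (Fin n → H) => A v) h3
    exact h4
  -- the factorisation
  set A : Matrix (Fin n) (Fin n) (MonoidAlgebra ℤ G) := (K : ℤ) • 1 with hA
  have hcomm : Commute A T := by
    have h5 : Commute (1 : Matrix (Fin n) (Fin n) (MonoidAlgebra ℤ G)) T := Commute.one_left T
    exact h5.smul_left (K : ℤ)
  have hfac := hcomm.mul_geom_sum₂ m
  have hAT : A - T = Lap X i := by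
    rw [hTdef]
    abel
  rw [hAT] at hfac
  refine ⟨c⁻¹ • mo π (∑ k ∈ Finset.range m, A ^ k * T ^ (m - 1 - k)) w, ?_⟩
  rw [map_smul, ← mo_mul, hfac, mo_sub]
  have h6 : A ^ m = ((K : ℤ) ^ m) • (1 : Matrix (Fin n) (Fin n) (MonoidAlgebra ℤ G)) := by
    rw [hA, smul_pow, one_pow]
  rw [h6, mo_smul, mo_one, smul_sub]
  have h7 : c⁻¹ • ((K : ℤ) ^ m) • w = w := by
    rw [← Int.cast_smul_eq_zsmul ℂ, smul_smul]
    have h8 : c⁻¹ * (((K : ℤ) ^ m : ℤ) : ℂ) = 1 := by
      rw [hc]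
      push_cast
      exact inv_mul_cancel₀ hc0
    rw [h8, one_smul]
  rw [h7]
  exact hw

/-- exactness in degree one -/
theorem exact_one (π : Rep G H) (X : FinRes G) (i : ℕ)
    (hs : ∀ v : Fin (X.n (i + 1)) → H, ∃ u, mo π (Lap X i) u = v) (v : Fin (X.n (i + 1)) → H)
    (hv : mo π (X.d (i + 1)) v = 0) : ∃ w, mo π (X.d i) w = v := by
  obtain ⟨u, hu⟩ := hs v
  rw [lap_apply] at hu
  have h1 : mo π (X.d (i + 1)) (mo π (stM (X.d (i + 1))) (mo π (X.d (i + 1)) u)) = 0 := by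
    have h2 := congrArg (mo π (X.d (i + 1))) hu
    rw [map_add, d_d, zero_add, hv] at h2
    exact h2
  have h3 : q (mo π (stM (X.d (i + 1))) (mo π (X.d (i + 1)) u)) = 0 := by
    rw [q_re, mo_adj, h1]
    simp
  have h4 := q_zero_iff _ h3
  rw [h4, add_zero] at hu
  exact ⟨_, hu⟩

/-! ### exactness kills the cocycles -/

/-- the extension of a cocycle to the group ring -/
def bx (b : G → H) (a : MonoidAlgebra ℤ G) : H := a.coeff.sum fun g r => r • b g

theorem bx_zero (b : G → H) : bx b 0 = 0 := by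
  unfold bx
  simp

theorem bx_add (b : G → H) (x y : MonoidAlgebra ℤ G) : bx b (x + y) = bx b x + bx b y := by
  unfold bx
  rw [MonoidAlgebra.coeff_add, Finsupp.sum_add_index']
  · intro g
    simp
  · intro g r r'
    rw [add_smul]

theorem bx_single (b : G → H) (g : G) (r : ℤ) : bx b (MonoidAlgebra.single g r) = r • b g := by
  unfold bx
  rw [MonoidAlgebra.coeff_single, Finsupp.sum_single_index]
  simp

theorem bx_mul (π : Rep G H) (b : G → H) (hb : IsCoc π b) (x y : MonoidAlgebra ℤ G) :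
    bx b (x * y) = π.alg x (bx b y) + augm G y • bx b x := by
  refine MonoidAlgebra.induction_linear x ?_ ?_ ?_
  · rw [zero_mul, bx_zero, map_zero, smul_zero, add_zero]
    rfl
  · intro x x' hx hx'
    rw [add_mul, bx_add, hx, hx', map_add, bx_add, smul_add]
    change _ = π.alg x (bx b y) + π.alg x' (bx b y) + _
    abel
  · intro g r
    refine MonoidAlgebra.induction_linear y ?_ ?_ ?_
    · rw [mul_zero, bx_zero, map_zero, map_zero, zero_smul, add_zero]
    · intro y y' hy hy'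
      rw [mul_add, bx_add, hy, hy', bx_add, map_add, map_add, add_smul]
      abel
    · intro h s
      rw [MonoidAlgebra.single_mul_single, bx_single, bx_single, bx_single, augm_single, hb g h,
        alg_single]
      change (r * s) • (b g + π.hom g (b h)) = r • π.hom g (s • b h) + s • r • b g
      rw [map_zsmul, smul_add, smul_smul, smul_smul, mul_comm s r]
      abel

/-- exactness in degree one kills the cocycles -/
theorem van (π : Rep G H) (X : FinRes G)
    (hex : ∀ v : Fin (X.n 1) → H, dm π X 1 v = 0 → ∃ w, dm π X 0 w = v) : Van1 π := by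
  intro b hb
  -- the map `φ` and its properties
  let φ : (Fin (X.n 0) → MonoidAlgebra ℤ G) → MonoidAlgebra ℤ G := fun x => ∑ j, x j * (X.aug j : MonoidAlgebra ℤ G)
  have hφs : ∀ a x, φ (a • x) = a * φ x := by
    intro a x
    simp only [φ, Finset.mul_sum, Pi.smul_apply, smul_eq_mul, mul_assoc]
  have hφsub : ∀ x y, φ (x - y) = φ x - φ y := by
    intro x y
    simp only [φ, Pi.sub_apply, sub_mul, Finset.sum_sub_distrib]
  have hφsum : ∀ (s : Finset (Fin (X.n 1))) (f : Fin (X.n 1) → Fin (X.n 0) → MonoidAlgebra ℤ G),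
      φ (∑ k ∈ s, f k) = ∑ k ∈ s, φ (f k) := by
    intro s f
    simp only [φ, Finset.sum_apply, Finset.sum_mul]
    rw [Finset.sum_comm]
  have hφa : ∀ x, augm G (φ x) = eps X x := by
    intro x
    simp only [φ, map_sum, map_mul, map_intCast]
    rfl
  have hbxsum : ∀ (s : Finset (Fin (X.n 1))) (f : Fin (X.n 1) → MonoidAlgebra ℤ G),
      bx b (∑ k ∈ s, f k) = ∑ k ∈ s, bx b (f k) := by
    intro s f
    exact map_sum (⟨⟨bx b, bx_zero b⟩, bx_add b⟩ : MonoidAlgebra ℤ G →+ H) f s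
  have hbxsub : ∀ x y, bx b (x - y) = bx b x - bx b y := by
    intro x y
    exact map_sub (⟨⟨bx b, bx_zero b⟩, bx_add b⟩ : MonoidAlgebra ℤ G →+ H) x y
  have hrow : ∀ k : Fin (X.n 1), eps X (X.d 0 k) = 0 := by
    intro k
    have e0 : (Pi.single k 1 : Fin (X.n 1) → MonoidAlgebra ℤ G) ᵥ* X.d 0 = X.d 0 k := by
      funext j; simp [Matrix.vecMul, dotProduct, Pi.single_apply]
    rw [← e0, eps_d]
  let v : Fin (X.n 1) → H := fun k => bx b (φ (X.d 0 k))
  have hv : ∀ y : Fin (X.n 1) → MonoidAlgebra ℤ G, bx b (φ (y ᵥ* X.d 0)) = pw π y v := by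
    intro y
    have h1 : y ᵥ* X.d 0 = ∑ k, y k • X.d 0 k := by
      funext j
      simp [Matrix.vecMul, dotProduct, Finset.sum_apply]
    rw [h1, hφsum, hbxsum]
    unfold pw
    refine Finset.sum_congr rfl fun k _ => ?_
    rw [hφs, bx_mul π b hb, hφa, hrow, zero_smul, add_zero]
  have hd : dm π X 1 v = 0 := by
    funext l
    have h2 : (X.d 1 l) ᵥ* X.d 0 = 0 := by
      rw [X.exact_succ 0]
      refine ⟨Pi.single l 1, ?_⟩
      funext j; simp [Matrix.vecMul, dotProduct, Pi.single_apply]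
    have h3 := hv (X.d 1 l)
    rw [h2] at h3
    have h4 : φ 0 = 0 := by simp [φ]
    rw [h4, bx_zero] at h3
    exact h3.symm
  obtain ⟨w, hw⟩ := hex v hd
  have hB : ∀ x, eps X x = 0 → bx b (φ x) = pw π x w := by
    intro x hx
    obtain ⟨y, rfl⟩ := exists_lift X x hx
    rw [hv, pw_vecMul, hw]
  obtain ⟨x0, hx0⟩ := X.surj
  change eps X x0 = 1 at hx0
  refine ⟨pw π x0 w - bx b (φ x0), fun g => ?_⟩
  have h5 := hB ((MonoidAlgebra.single g 1 : MonoidAlgebra ℤ G) • x0 - x0) (by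
    rw [eps_sub, eps_smul, augm_single, hx0]; norm_num)
  rw [pw_sub, pw_smul, hφsub, hφs, hbxsub, bx_mul π b hb, hφa, hx0, one_smul, bx_single, one_smul,
    alg_single, one_smul] at h5
  rw [map_sub]
  have h6 : b g = π.hom g (pw π x0 w) - pw π x0 w - π.hom g (bx b (φ x0)) + bx b (φ x0) := by
    rw [← h5]
    abel
  rw [h6]
  abel

/-- **The criterion**: a gap of the regular representation in degree one kills the cocycles of the
tempered representations. -/
theorem gap_van [CompleteSpace H] {π : Rep G H} (hπ : Tempered π) (X : FinRes G) (ε : ℝ)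
    (hε : 0 < ε)
    (hgap : ∀ v : Fin (X.n 1) → L2 G,
      ε * q v ≤ q (mo (reg G) (X.d 1) v) + q (mo (reg G) (stM (X.d 0)) v)) : Van1 π := by
  refine van π X fun v hv => ?_
  obtain ⟨w, hw⟩ := exact_one π X 0 (surj_lap hπ X 0 ε hε hgap) v (by rw [mo_dm]; exact hv)
  exact ⟨w, by rw [← mo_dm]; exact hw⟩

end

end Pool.Agent.L7h55.SE.Pow
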